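import Mathlib

/-!
# Derandomizing LCL problems on classes of subexponential growth: Q1 fails for a class that is
# itself defined by an LCL

We formalise the LOCAL model (deterministic and randomized), LCL problems, and graph classes of
bounded degree and subexponential growth. We give two LCL problems `C` and `P` such that for every
`f` with `f r ≥ (2 r + 1) ^ 2`, on the class `F` of all finite graphs with `|B(v, r)| ≤ f r` for all
`v`, `r` that admit a solution of `C`, the problem `P` is solved by an algorithm of radius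
`⌊log₂ n⌋ + 1` which does not look at identifiers or random bits, while no deterministic (and no
randomized) algorithm has radius below `k` on the graphs with `n = 3 * (k + 1) * 2 ^ k` vertices.
-/

open Filter Topology MeasureTheory

namespace Pool.Agent.Results.MP_e442af_lc.CounterClass

/-! ## The model -/

/-- The ball `B_G(v, r)`: the vertices joined to `v` by a walk with at most `r` edges. -/
def ball {V : Type} (G : SimpleGraph V) (v : V) (r : ℕ) : Set V :=
  {u | ∃ p : G.Walk v u, p.length ≤ r}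

/-- The two `L`-labelled balls of radius `t` (around `v` in `G` and around `v'` in `G'`), as
rooted graphs with labels on the vertices, are isomorphic. -/
def BallIso {V V' L : Type} (t : ℕ) (G : SimpleGraph V) (lab : V → L) (v : V)
    (G' : SimpleGraph V') (lab' : V' → L) (v' : V') : Prop :=
  ∃ e : ball G v t ≃ ball G' v' t,
    (∀ x : ball G v t, (x : V) = v → (e x : V') = v') ∧
    (∀ x y : ball G v t, G.Adj x y ↔ G'.Adj (e x) (e y)) ∧
    ∀ x : ball G v t, lab x = lab' (e x)

/-- A LOCAL algorithm on graphs whose vertices carry labels from `L` (identifiers, or random bit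
strings) with outputs in `S`: given the number `n` of vertices, the output at `v` depends only on
(the isomorphism type of) the rooted ball of radius `rad n` around `v` together with the labels
on it. -/
structure LocalAlg (L S : Type) where
  /-- the complexity `t_n` -/
  rad : ℕ → ℕ
  /-- the output at a vertex of a graph with `n` vertices -/
  out : (n : ℕ) → {V : Type} → SimpleGraph V → (V → L) → V → S
  /-- locality -/
  isLocal : ∀ (n : ℕ) {V V' : Type} (G : SimpleGraph V) (lab : V → L) (v : V)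
    (G' : SimpleGraph V') (lab' : V' → L) (v' : V'),
    BallIso (rad n) G lab v G' lab' v' → out n G lab v = out n G' lab' v'

/-- An LCL problem: a finite output alphabet `S`, a radius `r`, and a set of allowed rooted
`S`-labelled balls of radius `r` (given by a predicate on pointed labelled graphs which is
invariant under isomorphism of the labelled balls of radius `r`). -/
structure LCL where
  /-- output alphabet -/
  S : Type
  /-- the alphabet is finite -/
  fin : Finite S
  /-- radius -/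
  r : ℕ
  /-- the labelled ball around the vertex is allowed -/
  ok : {V : Type} → SimpleGraph V → (V → S) → V → Prop
  /-- `ok` is a property of the labelled ball of radius `r` -/
  isLocal : ∀ {V V' : Type} (G : SimpleGraph V) (l : V → S) (v : V)
    (G' : SimpleGraph V') (l' : V' → S) (v' : V'),
    BallIso r G l v G' l' v' → (ok G l v ↔ ok G' l' v')

/-- A labelling is a solution if the labelled ball of every vertex is allowed. -/
def LCL.Solves (P : LCL) {V : Type} (G : SimpleGraph V) (l : V → P.S) : Prop :=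
  ∀ v, P.ok G l v

/-- A class of graphs; only its finite members matter. -/
abbrev GraphClass : Type 1 := ∀ V : Type, Set (SimpleGraph V)

/-- `F` is closed under isomorphism. -/
def IsoClosed (F : GraphClass) : Prop :=
  ∀ (V V' : Type) (G : SimpleGraph V) (G' : SimpleGraph V'),
    Nonempty (G ≃g G') → G ∈ F V → G' ∈ F V'

/-- Bounded degree and subexponential growth. -/
def BoundedDegreeSubexp (F : GraphClass) : Prop :=
  ∃ (D : ℕ) (f : ℕ → ℕ), Tendsto (fun r : ℕ => Real.log (f r) / r) atTop (𝓝 0) ∧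
    ∀ (V : Type) [Finite V], ∀ G ∈ F V, ∀ v : V,
      (G.neighborSet v).ncard ≤ D ∧ ∀ r, (ball G v r).ncard ≤ f r

/-- The deterministic algorithm `A` solves `P` on all finite graphs of `F`, for all injective
labellings by identifiers in `{1, ..., n ^ c}`, `n` the number of vertices. -/
def SolvesDet (F : GraphClass) (P : LCL) (c : ℝ) (A : LocalAlg ℕ P.S) : Prop :=
  ∀ (V : Type) [Finite V], ∀ G ∈ F V, ∀ ident : V → ℕ, Function.Injective ident →
    (∀ v, 1 ≤ ident v ∧ (ident v : ℝ) ≤ (Nat.card V : ℝ) ^ c) →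
      P.Solves G (A.out (Nat.card V) G ident)

/-- Independent fair bits, infinitely many for each vertex. -/
noncomputable def bits (V : Type) : Measure (V × ℕ → Bool) :=
  Measure.infinitePi (fun _ : V × ℕ => (PMF.uniformOfFintype Bool).toMeasure)

/-- The randomized algorithm `A` solves `P` on all finite graphs of `F` with probability at least
`1 - n ^ (-d)`. -/
def SolvesRand (F : GraphClass) (P : LCL) (d : ℝ) (A : LocalAlg (ℕ → Bool) P.S) : Prop :=
  ∀ (V : Type) [Finite V], ∀ G ∈ F V,
    MeasurableSet {w : V × ℕ → Bool | P.Solves G (A.out (Nat.card V) G (fun v i => w (v, i)))} ∧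
    1 - (Nat.card V : ℝ) ^ (-d) ≤ (bits V).real
      {w : V × ℕ → Bool | P.Solves G (A.out (Nat.card V) G (fun v i => w (v, i)))}

/-- The iterated logarithm. -/
def logStar (n : ℕ) : ℕ :=
  if h : n ≤ 1 then 0 else 1 + logStar (Nat.log 2 n)
termination_by n
decreasing_by exact Nat.log_lt_self 2 (by omega)

/-- The randomized LOCAL complexity of `P` on `F` is `O(log n)`. -/
def RandLog (F : GraphClass) (P : LCL) (d : ℝ) : Prop :=
  ∃ A : LocalAlg (ℕ → Bool) P.S, SolvesRand F P d A ∧
    (fun n : ℕ => (A.rad n : ℝ)) =O[atTop] (fun n : ℕ => Real.log n)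

/-- The deterministic LOCAL complexity of `P` on `F` is `O(log* n)`. -/
def DetLogStar (F : GraphClass) (P : LCL) (c : ℝ) : Prop :=
  ∃ A : LocalAlg ℕ P.S, SolvesDet F P c A ∧
    (fun n : ℕ => (A.rad n : ℝ)) =O[atTop] (fun n : ℕ => (logStar n : ℝ))

/-- The speed-up statement asked for in Q1, for identifiers up to `n ^ c` and error probability
`n ^ (-d)`. -/
def SpeedUp (c d : ℝ) : Prop :=
  ∀ F : GraphClass, IsoClosed F → BoundedDegreeSubexp F →
    ∀ P : LCL, RandLog F P d → DetLogStar F P c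

/-- The graphs with growth bounded by `f` that admit a solution of the LCL `C`. -/
def lclClass (f : ℕ → ℕ) (C : LCL) : GraphClass := fun V =>
  {G : SimpleGraph V | (∀ v r, (ball G v r).ncard ≤ f r) ∧ ∃ l : V → C.S, C.Solves G l}

/-- The connected graphs of a class. -/
def connPart (F : GraphClass) : GraphClass := fun V => {G | G ∈ F V ∧ G.Connected}

/-- `φ` embeds `H` in `G` as a union of connected components of `G`. -/
def UnionOfComponents {V V' : Type} (H : SimpleGraph V) (G : SimpleGraph V') (φ : V → V') : Prop :=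
  Function.Injective φ ∧ (∀ x y, H.Adj x y ↔ G.Adj (φ x) (φ y)) ∧
    ∀ x y, G.Adj (φ x) y → ∃ z, φ z = y

/-- `F` is closed under passing to (unions of) connected components and under disjoint unions
(in particular under isomorphism). -/
def ComponentClosed (F : GraphClass) : Prop :=
  (∀ (V V' : Type) (H : SimpleGraph V) (G : SimpleGraph V') (φ : V → V'),
    UnionOfComponents H G φ → G ∈ F V' → H ∈ F V) ∧
  (∀ (V' : Type) (G : SimpleGraph V'),
    (∀ v : V', ∃ (V : Type) (H : SimpleGraph V) (φ : V → V'),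
      H ∈ F V ∧ UnionOfComponents H G φ ∧ ∃ x, φ x = v) → G ∈ F V')

/-! ## Balls -/

lemma mem_ball_self {V : Type} (G : SimpleGraph V) (v : V) (r : ℕ) : v ∈ ball G v r :=
  ⟨SimpleGraph.Walk.nil, by simp⟩

lemma ball_mono {V : Type} (G : SimpleGraph V) (v : V) {r s : ℕ} (h : r ≤ s) :
    ball G v r ⊆ ball G v s := fun _ ⟨p, hp⟩ => ⟨p, hp.trans h⟩

lemma mem_ball_zero {V : Type} {G : SimpleGraph V} {v u : V} :
    u ∈ ball G v 0 ↔ u = v := by
  constructor
  · rintro ⟨p, hp⟩
    exact (SimpleGraph.Walk.eq_of_length_eq_zero (p := p) (by omega)).symm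
  · rintro rfl
    exact mem_ball_self _ _ _

lemma mem_ball_succ {V : Type} {G : SimpleGraph V} {v u : V} {r : ℕ} :
    u ∈ ball G v (r + 1) ↔ u = v ∨ ∃ w, G.Adj v w ∧ u ∈ ball G w r := by
  constructor
  · rintro ⟨p, hp⟩
    cases p with
    | nil => exact Or.inl rfl
    | cons h q =>
      simp only [SimpleGraph.Walk.length_cons] at hp
      exact Or.inr ⟨_, h, q, by omega⟩
  · rintro (rfl | ⟨w, hw, p, hp⟩)
    · exact mem_ball_self _ _ _
    · exact ⟨SimpleGraph.Walk.cons hw p, by simp only [SimpleGraph.Walk.length_cons]; omega⟩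

lemma ball_symm {V : Type} {G : SimpleGraph V} {v u : V} {r : ℕ}
    (h : u ∈ ball G v r) : v ∈ ball G u r := by
  obtain ⟨p, hp⟩ := h
  exact ⟨p.reverse, by simpa using hp⟩

lemma mem_ball_succ' {V : Type} {G : SimpleGraph V} {v u : V} {r : ℕ} :
    u ∈ ball G v (r + 1) ↔ u = v ∨ ∃ w, w ∈ ball G v r ∧ G.Adj w u := by
  constructor
  · intro h
    rcases mem_ball_succ.1 (ball_symm h) with h | ⟨w, hw, h⟩
    · exact Or.inl h.symm
    · exact Or.inr ⟨w, ball_symm h, hw.symm⟩
  · rintro (rfl | ⟨w, hw, h⟩)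
    · exact mem_ball_self _ _ _
    · exact ball_symm (mem_ball_succ.2 (Or.inr ⟨w, h.symm, ball_symm hw⟩))

lemma reachable_of_mem_ball {V : Type} {G : SimpleGraph V} {v u : V} {r : ℕ}
    (h : u ∈ ball G v r) : G.Reachable v u := ⟨h.choose⟩

/-! ## Isomorphic balls -/

section iso

variable {V V' L : Type} {t : ℕ} {G : SimpleGraph V} {G' : SimpleGraph V'} {v : V} {v' : V'}
  {lab : V → L} {lab' : V' → L}

lemma map_ball (e : ball G v t ≃ ball G' v' t)
    (h0 : ∀ x : ball G v t, (x : V) = v → (e x : V') = v')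
    (hA : ∀ x y : ball G v t, G.Adj x y ↔ G'.Adj (e x) (e y)) :
    ∀ s, s ≤ t → ∀ x : ball G v t, (x : V) ∈ ball G v s → (e x : V') ∈ ball G' v' s := by
  intro s
  induction s with
  | zero =>
    intro _ x hx
    rw [mem_ball_zero] at hx ⊢
    exact h0 x hx
  | succ s ih =>
    intro hs x hx
    rw [mem_ball_succ'] at hx ⊢
    rcases hx with hx | ⟨w, hw, hwx⟩
    · exact Or.inl (h0 x hx)
    · have hwt : w ∈ ball G v t := ball_mono G v (by omega) hw
      exact Or.inr ⟨e ⟨w, hwt⟩, ih (by omega) ⟨w, hwt⟩ hw, (hA ⟨w, hwt⟩ x).1 hwx⟩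

lemma BallIso.symm' (h : BallIso t G lab v G' lab' v') : BallIso t G' lab' v' G lab v := by
  obtain ⟨e, h0, hA, hl⟩ := h
  refine ⟨e.symm, fun y hy => ?_, fun x y => ?_, fun x => ?_⟩
  · have h1 := h0 ⟨v, mem_ball_self G v t⟩ rfl
    have h2 : y = e ⟨v, mem_ball_self G v t⟩ := Subtype.ext (hy.trans h1.symm)
    rw [h2, Equiv.symm_apply_apply]
  · rw [hA, Equiv.apply_symm_apply, Equiv.apply_symm_apply]
  · have := hl (e.symm x)
    rw [Equiv.apply_symm_apply] at this
    exact this.symm

end iso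

/-- A convenient form of an isomorphism of balls. -/
lemma BallIso.tr {V V' L : Type} {t : ℕ} {G : SimpleGraph V} {G' : SimpleGraph V'} {v : V}
    {v' : V'} {lab : V → L} {lab' : V' → L} (h : BallIso t G lab v G' lab' v') :
    ∃ (f : V → V') (g : V' → V),
      (∀ s ≤ t, ∀ x ∈ ball G v s, f x ∈ ball G' v' s) ∧
      (∀ s ≤ t, ∀ y ∈ ball G' v' s, g y ∈ ball G v s) ∧
      (∀ x ∈ ball G v t, g (f x) = x) ∧ (∀ y ∈ ball G' v' t, f (g y) = y) ∧
      f v = v' ∧ g v' = v ∧
      (∀ x ∈ ball G v t, ∀ y ∈ ball G v t, (G.Adj x y ↔ G'.Adj (f x) (f y))) ∧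
      (∀ x ∈ ball G v t, lab x = lab' (f x)) := by
  classical
  have h' := h.symm'
  obtain ⟨e, h0, hA, hl⟩ := h
  have hsymm : BallIso t G' lab' v' G lab v := by
    refine ⟨e.symm, fun y hy => ?_, fun x y => ?_, fun x => ?_⟩
    · have h1 := h0 ⟨v, mem_ball_self G v t⟩ rfl
      have h2 : y = e ⟨v, mem_ball_self G v t⟩ := Subtype.ext (hy.trans h1.symm)
      rw [h2, Equiv.symm_apply_apply]
    · rw [hA, Equiv.apply_symm_apply, Equiv.apply_symm_apply]
    · have := hl (e.symm x)
      rw [Equiv.apply_symm_apply] at this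
      exact this.symm
  have h0' : ∀ y : ball G' v' t, (y : V') = v' → (e.symm y : V) = v := by
    intro y hy
    have h1 := h0 ⟨v, mem_ball_self G v t⟩ rfl
    have h2 : y = e ⟨v, mem_ball_self G v t⟩ := Subtype.ext (hy.trans h1.symm)
    rw [h2, Equiv.symm_apply_apply]
  have hA' : ∀ x y : ball G' v' t, G'.Adj x y ↔ G.Adj (e.symm x) (e.symm y) := by
    intro x y
    rw [hA, Equiv.apply_symm_apply, Equiv.apply_symm_apply]
  refine ⟨fun x => if hx : x ∈ ball G v t then (e ⟨x, hx⟩ : V') else v',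
    fun y => if hy : y ∈ ball G' v' t then (e.symm ⟨y, hy⟩ : V) else v, ?_, ?_, ?_, ?_, ?_, ?_,
    ?_, ?_⟩
  · intro s hs x hx
    have hx' := ball_mono G v hs hx
    simp only [hx', dif_pos]
    exact map_ball e h0 hA s hs ⟨x, hx'⟩ hx
  · intro s hs y hy
    have hy' := ball_mono G' v' hs hy
    simp only [hy', dif_pos]
    exact map_ball e.symm h0' hA' s hs ⟨y, hy'⟩ hy
  · intro x hx
    simp only [hx, dif_pos]
    rw [dif_pos (e ⟨x, hx⟩).2]
    simp
  · intro y hy
    simp only [hy, dif_pos]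
    rw [dif_pos (e.symm ⟨y, hy⟩).2]
    simp
  · simp only [mem_ball_self, dif_pos]
    exact h0 _ rfl
  · simp only [mem_ball_self, dif_pos]
    exact h0' _ rfl
  · intro x hx y hy
    simp only [hx, hy, dif_pos]
    exact hA ⟨x, hx⟩ ⟨y, hy⟩
  · intro x hx
    simp only [hx, dif_pos]
    exact hl ⟨x, hx⟩

/-- `v` has exactly one neighbour. -/
def One {V : Type} (G : SimpleGraph V) (v : V) : Prop := ∃ a, ∀ u, G.Adj v u ↔ u = a

/-- `v` has exactly two neighbours. -/
def Two {V : Type} (G : SimpleGraph V) (v : V) : Prop :=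
  ∃ a b, a ≠ b ∧ ∀ u, G.Adj v u ↔ (u = a ∨ u = b)

section transfer

variable {V V' L : Type} {t : ℕ} {G : SimpleGraph V} {G' : SimpleGraph V'} {v : V} {v' : V'}
  {lab : V → L} {lab' : V' → L}

lemma adj_mem {s : ℕ} {x y : V} (hx : x ∈ ball G v s) (h : G.Adj x y) :
    y ∈ ball G v (s + 1) := mem_ball_succ'.2 (Or.inr ⟨x, hx, h⟩)

/-- Having exactly one neighbour is preserved, for vertices at distance less than `t`. -/
lemma one_transfer (h : BallIso t G lab v G' lab' v') :
    ∃ f : V → V', (∀ s ≤ t, ∀ x ∈ ball G v s, f x ∈ ball G' v' s) ∧ f v = v' ∧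
      (∀ s, s + 1 ≤ t → ∀ x ∈ ball G v s, One G x → One G' (f x)) ∧
      (∀ s, s + 1 ≤ t → ∀ x ∈ ball G v s, Two G x → Two G' (f x)) := by
  obtain ⟨f, g, hfB, hgB, hgf, hfg, hf0, hg0, hA, hl⟩ := h.tr
  refine ⟨f, hfB, hf0, ?_, ?_⟩
  · rintro s hs x hx ⟨a, ha⟩
    have hxt : x ∈ ball G v t := ball_mono G v (by omega) hx
    have hat : a ∈ ball G v t := ball_mono G v hs (adj_mem hx ((ha a).2 rfl))
    refine ⟨f a, fun u => ?_⟩
    constructor
    · intro hu
      have hut : u ∈ ball G' v' t :=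
        ball_mono G' v' hs (adj_mem (hfB s (by omega) x hx) hu)
      have h1 : G.Adj x (g u) := by
        rw [hA x hxt (g u) (hgB t le_rfl u hut), hfg u hut]
        exact hu
      rw [← (ha _).1 h1, hfg u hut]
    · rintro rfl
      exact (hA x hxt a hat).1 ((ha a).2 rfl)
  · rintro s hs x hx ⟨a, b, hab, ha⟩
    have hxt : x ∈ ball G v t := ball_mono G v (by omega) hx
    have hat : a ∈ ball G v t := ball_mono G v hs (adj_mem hx ((ha a).2 (Or.inl rfl)))
    have hbt : b ∈ ball G v t := ball_mono G v hs (adj_mem hx ((ha b).2 (Or.inr rfl)))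
    refine ⟨f a, f b, fun hf => hab ?_, fun u => ?_⟩
    · rw [← hgf a hat, hf, hgf b hbt]
    constructor
    · intro hu
      have hut : u ∈ ball G' v' t :=
        ball_mono G' v' hs (adj_mem (hfB s (by omega) x hx) hu)
      have h1 : G.Adj x (g u) := by
        rw [hA x hxt (g u) (hgB t le_rfl u hut), hfg u hut]
        exact hu
      rcases (ha _).1 h1 with h2 | h2
      · exact Or.inl (by rw [← h2, hfg u hut])
      · exact Or.inr (by rw [← h2, hfg u hut])
    · rintro (rfl | rfl)
      · exact (hA x hxt a hat).1 ((ha a).2 (Or.inl rfl))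
      · exact (hA x hxt b hbt).1 ((ha b).2 (Or.inr rfl))

lemma one_iff (h : BallIso (t + 1) G lab v G' lab' v') : One G v ↔ One G' v' := by
  constructor
  · intro h1
    obtain ⟨f, -, hf0, h2, -⟩ := one_transfer h
    rw [← hf0]
    exact h2 0 (by omega) v (mem_ball_self _ _ _) h1
  · intro h1
    obtain ⟨f, -, hf0, h2, -⟩ := one_transfer h.symm'
    rw [← hf0]
    exact h2 0 (by omega) v' (mem_ball_self _ _ _) h1

lemma two_iff (h : BallIso (t + 1) G lab v G' lab' v') : Two G v ↔ Two G' v' := by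
  constructor
  · intro h1
    obtain ⟨f, -, hf0, -, h2⟩ := one_transfer h
    rw [← hf0]
    exact h2 0 (by omega) v (mem_ball_self _ _ _) h1
  · intro h1
    obtain ⟨f, -, hf0, -, h2⟩ := one_transfer h.symm'
    rw [← hf0]
    exact h2 0 (by omega) v' (mem_ball_self _ _ _) h1

end transfer

/-! ## The LCL problem `P` -/

/-- Vertices with exactly one neighbour are labelled `true`, vertices with exactly two neighbours
are labelled `false`, and adjacent vertices have the same label. -/
def AllowedP {V : Type} (G : SimpleGraph V) (l : V → Bool) (v : V) : Prop :=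
  (One G v → l v = true) ∧ (Two G v → l v = false) ∧ ∀ u, G.Adj v u → l u = l v

lemma allowedP_of_iso {V V' : Type} {G : SimpleGraph V} {l : V → Bool} {v : V}
    {G' : SimpleGraph V'} {l' : V' → Bool} {v' : V'}
    (h : BallIso 1 G l v G' l' v') (hv : AllowedP G l v) : AllowedP G' l' v' := by
  obtain ⟨f, g, hfB, hgB, hgf, hfg, hf0, hg0, hA, hl⟩ := h.symm'.tr
  have h1 := one_iff (t := 0) h
  have h2 := two_iff (t := 0) h
  have hlv : l' v' = l v := by rw [hl v' (mem_ball_self _ _ _), hf0]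
  refine ⟨fun h3 => ?_, fun h3 => ?_, fun u hu => ?_⟩
  · rw [hlv]; exact hv.1 (h1.2 h3)
  · rw [hlv]; exact hv.2.1 (h2.2 h3)
  · have hut : u ∈ ball G' v' 1 := adj_mem (mem_ball_self G' v' 0) hu
    have h3 := (hA v' (mem_ball_self _ _ _) u hut).1 hu
    rw [hf0] at h3
    rw [hl u hut, hlv]
    exact hv.2.2 _ h3

/-- The LCL problem `P`. -/
def probP : LCL where
  S := Bool
  fin := inferInstance
  r := 1
  ok := fun G l v => AllowedP G l v
  isLocal := fun _ _ _ _ _ _ h => ⟨allowedP_of_iso h, allowedP_of_iso h.symm'⟩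

/-! ## The LCL problem `C` -/

/-- The labels of `C`. A vertex is a body vertex or not; a body vertex may be marked as `last`
(the left end of its row); it carries a bit and a carry bit, the type of its component, and its
coordinates mod `3`. -/
structure Lab where
  /-- body vertex -/
  body : Bool
  /-- left end of its row -/
  last : Bool
  /-- bit of the counter -/
  bit : Bool
  /-- carry bit -/
  carry : Bool
  /-- type of the component -/
  typ : Bool
  /-- horizontal coordinate mod `3` -/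
  X : ZMod 3
  /-- vertical coordinate mod `3` -/
  Y : ZMod 3

instance : Finite Lab :=
  Finite.of_injective (fun a : Lab => (a.body, a.last, a.bit, a.carry, a.typ, a.X, a.Y)) (by
    rintro ⟨a1, a2, a3, a4, a5, a6, a7⟩ ⟨b1, b2, b3, b4, b5, b6, b7⟩ h
    simp only [Prod.mk.injEq] at h
    obtain ⟨rfl, rfl, rfl, rfl, rfl, rfl, rfl⟩ := h
    rfl)

/-- A neighbour labelled `b` of a body vertex labelled `a` is its left neighbour. -/
def IsLeft (a b : Lab) : Prop :=
  a.body = true ∧ b.body = true ∧ a.X = b.X + 1 ∧ a.Y = b.Y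

/-- A neighbour labelled `b` of a body vertex labelled `a` is its upper neighbour. -/
def IsUp (a b : Lab) : Prop :=
  a.body = true ∧ b.body = true ∧ a.X = b.X ∧ b.Y = a.Y + 1

/-- The condition on the labels `a`, `b` of a vertex and a neighbour of it. -/
def Pair (a b : Lab) : Prop :=
  b.typ = a.typ ∧
  (a.body = true → b.body = true → IsLeft a b ∨ IsLeft b a ∨ IsUp a b ∨ IsUp b a) ∧
  (IsLeft a b → a.last = false ∧ a.carry = (b.carry && b.bit)) ∧
  (IsUp a b → b.last = a.last ∧ b.bit = xor a.bit a.carry) ∧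
  (a.body = false → b.body = true ∧ b.last = true)

/-- The conditions of `C` at the vertex `v`. -/
structure AllowedC {V : Type} (G : SimpleGraph V) (l : V → Lab) (v : V) : Prop where
  pair : ∀ w, G.Adj v w → Pair (l v) (l w)
  last : (l v).last = true → (l v).body = true ∧ (l v).carry = true
  up : (l v).body = true → ∃ w, G.Adj v w ∧ IsUp (l v) (l w)
  left : (l v).body = true → (l v).last = false → ∃ w, G.Adj v w ∧ IsLeft (l v) (l w)
  pend : (l v).last = true → (l v).typ = true → ∃ w, G.Adj v w ∧ (l w).body = false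
  uniq : ∀ w w', G.Adj v w → G.Adj v w' → IsLeft (l v) (l w) → IsLeft (l v) (l w') → w = w'
  square : ∀ w v', G.Adj v w → IsLeft (l v) (l w) → G.Adj v v' → IsUp (l v) (l v') →
    ∃ w', G.Adj w w' ∧ IsUp (l w) (l w') ∧ G.Adj v' w' ∧ IsLeft (l v') (l w')
  one : One G v ↔ ((l v).typ = true ∧ (l v).body = false)
  two : Two G v → (l v).typ = false

lemma allowedC_of_iso {V V' : Type} {G : SimpleGraph V} {l : V → Lab} {v : V}
    {G' : SimpleGraph V'} {l' : V' → Lab} {v' : V'}
    (h : BallIso 2 G l v G' l' v') (hv : AllowedC G l v) : AllowedC G' l' v' := by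
  obtain ⟨f, g, hfB, hgB, hgf, hfg, hf0, hg0, hA, hl⟩ := h.symm'.tr
  have h1 := one_iff (t := 1) h
  have h2 := two_iff (t := 1) h
  have hv2 : v' ∈ ball G' v' 2 := mem_ball_self _ _ _
  have hlv : l' v' = l v := by rw [hl v' hv2, hf0]
  -- pulling back a neighbour of `v'`
  have hin : ∀ u, G'.Adj v' u → u ∈ ball G' v' 1 := fun u hu =>
    adj_mem (mem_ball_self G' v' 0) hu
  have hpull : ∀ u, G'.Adj v' u → G.Adj v (f u) ∧ l' u = l (f u) := by
    intro u hu
    have hu2 : u ∈ ball G' v' 2 := ball_mono _ _ (by norm_num) (hin u hu)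
    have h3 := (hA v' hv2 u hu2).1 hu
    rw [hf0] at h3
    exact ⟨h3, hl u hu2⟩
  have hpush : ∀ w, G.Adj v w → G'.Adj v' (g w) ∧ l' (g w) = l w := by
    intro w hw
    have hw1 : w ∈ ball G v 1 := adj_mem (mem_ball_self G v 0) hw
    have hw2 : w ∈ ball G v 2 := ball_mono _ _ (by norm_num) hw1
    have hg2 : g w ∈ ball G' v' 2 := hgB 2 le_rfl w hw2
    refine ⟨(hA v' hv2 (g w) hg2).2 ?_, ?_⟩
    · rw [hf0, hfg w hw2]
      exact hw
    · rw [hl _ hg2, hfg w hw2]
  refine ⟨?_, ?_, ?_, ?_, ?_, ?_, ?_, ?_, ?_⟩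
  · intro u hu
    obtain ⟨ha, hlu⟩ := hpull u hu
    rw [hlv, hlu]
    exact hv.pair _ ha
  · rw [hlv]
    exact hv.last
  · rw [hlv]
    intro hb
    obtain ⟨w, hw, h3⟩ := hv.up hb
    obtain ⟨ha, hlw⟩ := hpush w hw
    exact ⟨g w, ha, by rw [hlw]; exact h3⟩
  · rw [hlv]
    intro hb hb'
    obtain ⟨w, hw, h3⟩ := hv.left hb hb'
    obtain ⟨ha, hlw⟩ := hpush w hw
    exact ⟨g w, ha, by rw [hlw]; exact h3⟩
  · rw [hlv]
    intro hb hb'
    obtain ⟨w, hw, h3⟩ := hv.pend hb hb'
    obtain ⟨ha, hlw⟩ := hpush w hw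
    exact ⟨g w, ha, by rw [hlw]; exact h3⟩
  · intro w w' hw hw' h3 h4
    obtain ⟨ha, hlw⟩ := hpull w hw
    obtain ⟨ha', hlw'⟩ := hpull w' hw'
    rw [hlv, hlw] at h3
    rw [hlv, hlw'] at h4
    have h5 := hv.uniq _ _ ha ha' h3 h4
    rw [← hgf w (ball_mono _ _ (by norm_num) (hin w hw)), h5,
      hgf w' (ball_mono _ _ (by norm_num) (hin w' hw'))]
  · intro w u hw h3 hu h4
    obtain ⟨ha, hlw⟩ := hpull w hw
    obtain ⟨ha', hlu⟩ := hpull u hu
    rw [hlv, hlw] at h3
    rw [hlv, hlu] at h4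
    obtain ⟨x, hx1, hx2, hx3, hx4⟩ := hv.square _ _ ha h3 ha' h4
    have hw2 : w ∈ ball G' v' 2 := ball_mono _ _ (by norm_num) (hin w hw)
    have hu2 : u ∈ ball G' v' 2 := ball_mono _ _ (by norm_num) (hin u hu)
    have hxx : x ∈ ball G v 2 := adj_mem (adj_mem (mem_ball_self G v 0) ha) hx1
    have hg2 : g x ∈ ball G' v' 2 := hgB 2 le_rfl x hxx
    refine ⟨g x, (hA w hw2 _ hg2).2 ?_, ?_, (hA u hu2 _ hg2).2 ?_, ?_⟩
    · rw [hfg x hxx]; exact hx1
    · rw [hlw, hl _ hg2, hfg x hxx]; exact hx2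
    · rw [hfg x hxx]; exact hx3
    · rw [hlu, hl _ hg2, hfg x hxx]; exact hx4
  · rw [← h1, hlv]
    exact hv.one
  · rw [← h2, hlv]
    exact hv.two

/-- The LCL problem `C`. -/
def probC : LCL where
  S := Lab
  fin := inferInstance
  r := 2
  ok := fun G l v => AllowedC G l v
  isLocal := fun _ _ _ _ _ _ h => ⟨allowedC_of_iso h, allowedC_of_iso h.symm'⟩

/-! ## Counters -/

section counter

variable {V : Type} {G : SimpleGraph V} {l : V → Lab}

/-- `Depth v x W`: the body vertex `v` is `x` steps to the right of the left end of its row, and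
`W < 2 ^ (x + 1)` is the value of the counter formed by the bits up to `v`. -/
inductive Depth (G : SimpleGraph V) (l : V → Lab) : V → ℕ → ℕ → Prop
  | base {v : V} : (l v).body = true → (l v).last = true → Depth G l v 0 (l v).bit.toNat
  | step {v w : V} {x W : ℕ} : G.Adj v w → IsLeft (l v) (l w) → Depth G l w x W →
      Depth G l v (x + 1) (W + 2 ^ (x + 1) * (l v).bit.toNat)

variable (hC : ∀ v, AllowedC G l v)

include hC in
lemma depth_unique {v : V} {x W : ℕ} (h : Depth G l v x W) :
    ∀ {x' W' : ℕ}, Depth G l v x' W' → x = x' ∧ W = W' := by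
  induction h with
  | @base v hb hlast =>
    intro x' W' h'
    cases h' with
    | base _ _ => exact ⟨rfl, rfl⟩
    | step ha hleft _ =>
      have := (((hC v).pair _ ha).2.2.1 hleft).1
      rw [hlast] at this
      exact absurd this (by decide)
  | @step v w x W ha hleft hd ih =>
    intro x' W' h'
    cases h' with
    | base _ hlast =>
      have := (((hC v).pair _ ha).2.2.1 hleft).1
      rw [hlast] at this
      exact absurd this (by decide)
    | @step _ w' x1 W1 ha' hleft' hd' =>
      have hw : w = w' := (hC v).uniq _ _ ha ha' hleft hleft'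
      subst hw
      obtain ⟨h1, h2⟩ := ih hd'
      subst h1
      subst h2
      exact ⟨rfl, rfl⟩

lemma depth_lt {v : V} {x W : ℕ} (h : Depth G l v x W) : W < 2 ^ (x + 1) := by
  induction h with
  | @base v _ _ => cases (l v).bit <;> simp
  | @step v w x W _ _ _ ih =>
    rw [pow_succ 2 (x + 1)]
    cases (l v).bit <;> simp <;> omega

lemma depth_body {v : V} {x W : ℕ} (h : Depth G l v x W) : (l v).body = true := by
  cases h with
  | base h _ => exact h
  | step _ h _ => exact h.1

include hC in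
lemma depth_carry {v : V} {x W : ℕ} (h : Depth G l v x W) :
    ((l v).carry && (l v).bit) = decide (W + 1 = 2 ^ (x + 1)) := by
  induction h with
  | @base v _ hlast =>
    rw [((hC v).last hlast).2]
    cases (l v).bit <;> simp
  | @step v w x W ha hleft hd ih =>
    rw [(((hC v).pair _ ha).2.2.1 hleft).2, ih]
    have h1 := depth_lt hd
    have h2 : 2 ^ (x + 1 + 1) = 2 ^ (x + 1) * 2 := pow_succ 2 (x + 1)
    rw [h2]
    cases (l v).bit
    · simp only [Bool.and_false, Bool.toNat_false, mul_zero, add_zero]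
      symm
      rw [decide_eq_false_iff_not]
      omega
    · simp only [Bool.and_true, Bool.toNat_true, mul_one]
      rw [decide_eq_decide]
      omega

include hC in
lemma depth_up {v : V} {x W : ℕ} (h : Depth G l v x W) :
    ∀ {v' : V}, G.Adj v v' → IsUp (l v) (l v') → Depth G l v' x ((W + 1) % 2 ^ (x + 1)) := by
  induction h with
  | @base v hb hlast =>
    intro v' ha hup
    obtain ⟨h1, h2⟩ := ((hC v).pair _ ha).2.2.2.1 hup
    rw [((hC v).last hlast).2] at h2
    have h3 : (((l v).bit.toNat) + 1) % 2 ^ (0 + 1) = (l v').bit.toNat := by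
      rw [h2]
      cases (l v).bit <;> simp
    rw [h3]
    exact Depth.base hup.2.1 (h1.trans hlast)
  | @step v w x W ha hleft hd ih =>
    intro v' ha' hup
    obtain ⟨w', hw1, hw2, hw3, hw4⟩ := (hC v).square _ _ ha hleft ha' hup
    have h1 := ih hw1 hw2
    have h2 := Depth.step hw3 hw4 h1
    have h3 := (((hC v).pair _ ha').2.2.2.1 hup).2
    have h4 := (((hC v).pair _ ha).2.2.1 hleft).2
    rw [depth_carry hC hd] at h4
    have h5 := depth_lt hd
    have h6 : (W + 2 ^ (x + 1) * (l v).bit.toNat + 1) % 2 ^ (x + 1 + 1) =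
        (W + 1) % 2 ^ (x + 1) + 2 ^ (x + 1) * (l v').bit.toNat := by
      rw [h3, h4, pow_succ 2 (x + 1)]
      set T := 2 ^ (x + 1) with hT
      have hTpos : 0 < T := by positivity
      rcases Nat.lt_or_ge (W + 1) T with hlt | hge
      · have hne : decide (W + 1 = T) = false := by
          rw [decide_eq_false_iff_not]; omega
        rw [hne, Nat.mod_eq_of_lt hlt]
        cases (l v).bit
        · simp only [Bool.toNat_false, mul_zero, add_zero, bne_self_eq_false]
          rw [Nat.mod_eq_of_lt (by omega)]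
        · simp only [Bool.toNat_true, mul_one, Bool.xor_false]
          rw [Nat.mod_eq_of_lt (by omega)]
          omega
      · have heq : W + 1 = T := by omega
        have hd' : decide (W + 1 = T) = true := by
          rw [decide_eq_true_iff]; exact heq
        rw [hd', heq, Nat.mod_self]
        cases (l v).bit
        · simp only [Bool.toNat_false, mul_zero, add_zero, Bool.xor_true, Bool.not_false,
            Bool.toNat_true, mul_one, zero_add]
          rw [heq, Nat.mod_eq_of_lt (by omega)]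
        · simp only [Bool.toNat_true, mul_one, Bool.xor_true, Bool.not_true, Bool.toNat_false,
            mul_zero, add_zero]
          rw [show W + T + 1 = T * 2 by omega, Nat.mod_self]
    rw [h6]
    exact h2

include hC in
lemma depth_iterate {v : V} {x W : ℕ} (h : Depth G l v x W) (i : ℕ) :
    ∃ u, Depth G l u x ((W + i) % 2 ^ (x + 1)) := by
  induction i with
  | zero =>
    refine ⟨v, ?_⟩
    rw [add_zero, Nat.mod_eq_of_lt (depth_lt h)]
    exact h
  | succ i ih =>
    obtain ⟨u, hu⟩ := ih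
    obtain ⟨w, hw, hup⟩ := (hC u).up (depth_body hu)
    refine ⟨w, ?_⟩
    have := depth_up hC hu hw hup
    rwa [Nat.mod_add_mod] at this

include hC in
lemma depth_card [Finite V] {v : V} {x W : ℕ} (h : Depth G l v x W) :
    2 ^ (x + 1) ≤ Nat.card V := by
  choose u hu using depth_iterate hC h
  have hinj : Function.Injective (fun i : Fin (2 ^ (x + 1)) => u i) := by
    intro i j hij
    simp only at hij
    have h1 := hu i
    rw [hij] at h1
    have h2 := (depth_unique hC h1 (hu j)).2
    have h3 : (i : ℕ) ≡ j [MOD 2 ^ (x + 1)] := Nat.ModEq.add_left_cancel' W h2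
    have h4 := Nat.ModEq.eq_of_lt_of_lt h3 i.2 j.2
    exact Fin.ext h4
  have := Nat.card_le_card_of_injective _ hinj
  rwa [Nat.card_fin] at this

include hC in
lemma depth_down {v : V} {x W : ℕ} (h : Depth G l v x W) :
    ∀ {u : V}, G.Adj u v → IsUp (l u) (l v) → ∃ x' W', Depth G l u x' W' := by
  induction h with
  | @base v hb hlast =>
    intro u ha hup
    have h1 := (((hC u).pair _ ha).2.2.2.1 hup).1
    exact ⟨_, _, Depth.base hup.1 (h1.symm.trans hlast)⟩
  | @step v w x W ha hleft hd ih =>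
    intro u ha' hup
    have h1 := (((hC u).pair _ ha').2.2.2.1 hup).1
    have h2 := (((hC v).pair _ ha).2.2.1 hleft).1
    obtain ⟨u', hu', hleft'⟩ := (hC u).left hup.1 (h1.symm.trans h2)
    obtain ⟨w', hw1, hw2, hw3, hw4⟩ := (hC u).square _ _ hu' hleft' ha' hup
    have h3 : w' = w := (hC v).uniq _ _ hw3 ha hw4 hleft
    subst h3
    obtain ⟨x', W', h4⟩ := ih hw1 hw2
    exact ⟨_, _, Depth.step hu' hleft' h4⟩

include hC in
lemma depth_adj {v w : V} {x W : ℕ} (h : Depth G l v x W) (ha : G.Adj v w)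
    (hw : (l w).body = true) : ∃ x' W', Depth G l w x' W' := by
  rcases ((hC v).pair _ ha).2.1 (depth_body h) hw with h1 | h1 | h1 | h1
  · cases h with
    | base _ hlast =>
      have := (((hC v).pair _ ha).2.2.1 h1).1
      rw [hlast] at this
      exact absurd this (by decide)
    | @step _ w' x W ha' hleft' hd =>
      have : w' = w := (hC v).uniq _ _ ha' ha hleft' h1
      subst this
      exact ⟨_, _, hd⟩
  · exact ⟨_, _, Depth.step ha.symm h1 h⟩
  · exact ⟨_, _, depth_up hC h ha h1⟩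
  · exact depth_down hC h ha.symm h1

include hC in
/-- In a component with a non-body vertex every body vertex has a depth. -/
lemma depth_of_reachable {s v : V} (hs : (l s).body = false) (p : G.Walk s v) :
    (l v).body = true → ∃ x W, Depth G l v x W := by
  have key : ∀ {a b : V} (_ : G.Walk a b), ((l a).body = true → ∃ x W, Depth G l a x W) →
      ((l b).body = true → ∃ x W, Depth G l b x W) := by
    intro a b q
    induction q with
    | nil => exact id
    | @cons a c b hac _ ih =>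
      intro ha
      apply ih
      intro hc
      by_cases hab : (l a).body = true
      · obtain ⟨x, W, h⟩ := ha hab
        exact depth_adj hC h hac hc
      · have hab' : (l a).body = false := by simpa using hab
        obtain ⟨h1, h2⟩ := ((hC a).pair _ hac).2.2.2.2 hab'
        exact ⟨_, _, Depth.base h1 h2⟩
  apply key p
  intro h
  rw [hs] at h
  exact absurd h (by decide)

include hC in
lemma typ_of_reachable {s v : V} (p : G.Walk s v) : (l v).typ = (l s).typ := by
  induction p with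
  | nil => rfl
  | @cons a c b hac _ ih => exact ih.trans ((hC a).pair _ hac).1

/-- There is a vertex with exactly one neighbour at distance at most `s` from `v`. -/
def Near (G : SimpleGraph V) (v : V) (s : ℕ) : Prop := ∃ w ∈ ball G v s, One G w

include hC in
lemma near_of_depth {v : V} {x W : ℕ} (h : Depth G l v x W) :
    (l v).typ = true → Near G v (x + 1) := by
  induction h with
  | @base v hb hlast =>
    intro ht
    obtain ⟨w, hw, hb'⟩ := (hC v).pend hlast ht
    refine ⟨w, mem_ball_succ.2 (Or.inr ⟨w, hw, mem_ball_self _ _ _⟩), (hC w).one.2 ⟨?_, hb'⟩⟩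
    rw [((hC v).pair _ hw).1, ht]
  | @step v w x W ha _ _ ih =>
    intro ht
    obtain ⟨u, hu, h1⟩ := ih (by rw [((hC v).pair _ ha).1, ht])
    exact ⟨u, mem_ball_succ.2 (Or.inr ⟨w, ha, hu⟩), h1⟩

include hC in
/-- The key property of the class: if the component of `v` contains a vertex with exactly one
neighbour, then there is one at distance at most `log₂ n` from `v`. -/
lemma near_of_reachable [Finite V] {s v : V} (hs : One G s) (p : G.Walk s v) :
    Near G v (Nat.log 2 (Nat.card V)) := by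
  obtain ⟨h1, h2⟩ := (hC s).one.1 hs
  have ht : (l v).typ = true := (typ_of_reachable hC p).trans h1
  by_cases hb : (l v).body = true
  · obtain ⟨x, W, h⟩ := depth_of_reachable hC h2 p hb
    obtain ⟨w, hw, hw1⟩ := near_of_depth hC h ht
    refine ⟨w, ball_mono G v ?_ hw, hw1⟩
    have h3 := depth_card hC h
    have h4 : Nat.log 2 (2 ^ (x + 1)) ≤ Nat.log 2 (Nat.card V) := Nat.log_mono_right h3
    rwa [Nat.log_pow (by norm_num)] at h4
  · exact ⟨v, mem_ball_self _ _ _, (hC v).one.2 ⟨ht, by simpa using hb⟩⟩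

end counter

/-! ## The algorithm -/

open Classical in
/-- The output: is there a vertex with exactly one neighbour within distance `k`? -/
noncomputable def answer {V : Type} (k : ℕ) (G : SimpleGraph V) (v : V) : Bool :=
  decide (Near G v k)

lemma near_of_iso {V V' L : Type} {k : ℕ} {G : SimpleGraph V} {lab : V → L}
    {v : V} {G' : SimpleGraph V'} {lab' : V' → L} {v' : V'}
    (h : BallIso (k + 1) G lab v G' lab' v') (hn : Near G v k) : Near G' v' k := by
  obtain ⟨w, hw, hd⟩ := hn
  obtain ⟨f, hfB, hf0, h1, -⟩ := one_transfer h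
  exact ⟨f w, hfB k (by omega) w hw, h1 k le_rfl w hw hd⟩

/-- The algorithm, which ignores the labels. -/
noncomputable def solver (L : Type) : LocalAlg L probP.S where
  rad := fun n => Nat.log 2 n + 1
  out := fun n _ G _ v => answer (Nat.log 2 n) G v
  isLocal := fun _ _ _ _ _ _ _ _ _ h => by
    classical
    unfold answer
    exact decide_eq_decide.2 ⟨near_of_iso h, near_of_iso h.symm'⟩

lemma answer_allowed {V : Type} [Finite V] {G : SimpleGraph V} {l : V → Lab}
    (hC : ∀ v, AllowedC G l v) (v : V) : AllowedP G (answer (Nat.log 2 (Nat.card V)) G) v := by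
  classical
  unfold answer
  refine ⟨fun h1 => ?_, fun h2 => ?_, fun u hu => ?_⟩
  · rw [decide_eq_true_iff]
    exact ⟨v, mem_ball_self _ _ _, h1⟩
  · rw [decide_eq_false_iff_not]
    rintro ⟨w, ⟨p, -⟩, hw⟩
    have h3 := typ_of_reachable hC p
    rw [((hC w).one.1 hw).1, (hC v).two h2] at h3
    exact absurd h3 (by decide)
  · rw [decide_eq_decide]
    constructor
    · rintro ⟨w, ⟨p, -⟩, hw⟩
      exact near_of_reachable hC hw (SimpleGraph.Walk.cons hu p).reverse
    · rintro ⟨w, ⟨p, -⟩, hw⟩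
      exact near_of_reachable hC hw (SimpleGraph.Walk.cons hu.symm p).reverse

/-! ## The cylinders -/

/-- The vertices of the cylinders: `k + 1` columns, each a cycle of length `3 * 2 ^ k`. -/
abbrev Cyl (k : ℕ) : Type := Fin (k + 1) × ZMod (3 * 2 ^ k)

instance instNeZeroCyl (k : ℕ) : NeZero (3 * 2 ^ k) := ⟨by positivity⟩

/-- Reduction mod `3` of the vertical coordinate. -/
def toThree (k : ℕ) : ZMod (3 * 2 ^ k) →+* ZMod 3 :=
  ZMod.castHom (Dvd.intro _ rfl) (ZMod 3)

lemma add_one_ne {k : ℕ} (y : ZMod (3 * 2 ^ k)) : y ≠ y + 1 := by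
  intro h
  have h1 := congrArg (toThree k) h
  rw [map_add, map_one] at h1
  have h2 : (1 : ZMod 3) = 0 := by linear_combination -h1
  exact absurd h2 (by decide)

lemma add_one_ne_sub_one {k : ℕ} (y : ZMod (3 * 2 ^ k)) : y + 1 ≠ y - 1 := by
  intro h
  have h1 := congrArg (toThree k) h
  rw [map_add, map_sub, map_one] at h1
  have h2 : (2 : ZMod 3) = 0 := by linear_combination h1
  exact absurd h2 (by decide)

/-- The ascending edges: to the right, upwards (except in column `0`), and, for the type `false`,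
from the vertices of column `0` to the upper right. -/
def Asc (ty : Bool) {k : ℕ} (p q : Cyl k) : Prop :=
  (q.1.val = p.1.val + 1 ∧ q.2 = p.2) ∨
  (q.1.val = p.1.val ∧ p.1.val ≠ 0 ∧ q.2 = p.2 + 1) ∨
  (ty = false ∧ p.1.val = 0 ∧ q.1.val = 1 ∧ q.2 = p.2 + 1)

/-- The cylinder of the type `ty`. -/
def cyl (ty : Bool) (k : ℕ) : SimpleGraph (Cyl k) where
  Adj p q := Asc ty p q ∨ Asc ty q p
  symm := ⟨fun _ _ h => h.symm⟩
  loopless := ⟨fun p h => by
    have h' : Asc ty p p := h.elim id id
    rcases h' with ⟨h, -⟩ | ⟨-, -, h⟩ | ⟨-, h, h', -⟩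
    · omega
    · exact add_one_ne _ h
    · omega⟩

lemma cyl_adj {ty : Bool} {k : ℕ} {p q : Cyl k} :
    (cyl ty k).Adj p q ↔ Asc ty p q ∨ Asc ty q p := Iff.rfl

/-- The labelling of the cylinder. -/
def lab (ty : Bool) {k : ℕ} (p : Cyl k) : Lab where
  body := decide (p.1.val ≠ 0)
  last := decide (p.1.val = 1)
  bit := decide (2 ^ (p.1.val - 1) ≤ p.2.val % 2 ^ p.1.val)
  carry := decide (p.2.val % 2 ^ (p.1.val - 1) + 1 = 2 ^ (p.1.val - 1))
  typ := ty
  X := (p.1.val : ZMod 3)
  Y := toThree k p.2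

lemma arith_carry (y e : ℕ) : (y % 2 ^ (e + 1) + 1 = 2 ^ (e + 1)) ↔
    ((y % 2 ^ e + 1 = 2 ^ e) ∧ 2 ^ e ≤ y % 2 ^ (e + 1)) := by
  have h1 : y % 2 ^ (e + 1) % 2 ^ e = y % 2 ^ e :=
    Nat.mod_mod_of_dvd _ (pow_dvd_pow 2 (by omega))
  have h2 : 2 ^ (e + 1) = 2 ^ e * 2 := pow_succ 2 e
  have h3 : y % 2 ^ (e + 1) < 2 ^ (e + 1) := Nat.mod_lt _ (by positivity)
  have hT : 0 < 2 ^ e := by positivity
  rw [← h1]
  rw [h2] at h3 ⊢
  set a := y % (2 ^ e * 2)
  set T := 2 ^ e
  rcases Nat.lt_or_ge a T with h | h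
  · rw [Nat.mod_eq_of_lt h]
    omega
  · rw [Nat.mod_eq_sub_mod h, Nat.mod_eq_of_lt (show a - T < T by omega)]
    omega

lemma arith_bit (y e : ℕ) : decide (2 ^ e ≤ (y + 1) % 2 ^ (e + 1)) =
    xor (decide (2 ^ e ≤ y % 2 ^ (e + 1))) (decide (y % 2 ^ e + 1 = 2 ^ e)) := by
  have h1 : y % 2 ^ (e + 1) % 2 ^ e = y % 2 ^ e :=
    Nat.mod_mod_of_dvd _ (pow_dvd_pow 2 (by omega))
  have h4 : (y + 1) % 2 ^ (e + 1) = (y % 2 ^ (e + 1) + 1) % 2 ^ (e + 1) := by
    rw [Nat.mod_add_mod]
  have h2 : 2 ^ (e + 1) = 2 ^ e * 2 := pow_succ 2 e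
  have h3 : y % 2 ^ (e + 1) < 2 ^ (e + 1) := Nat.mod_lt _ (by positivity)
  have hT : 0 < 2 ^ e := by positivity
  rw [← h1, h4]
  rw [h2] at h3 ⊢
  set a := y % (2 ^ e * 2)
  set T := 2 ^ e
  rcases Nat.lt_or_ge (a + 1) (T * 2) with h5 | h5
  · rw [Nat.mod_eq_of_lt h5]
    rcases Nat.lt_or_ge a T with h | h
    · rw [Nat.mod_eq_of_lt h]
      have e1 : decide (T ≤ a) = false := by rw [decide_eq_false_iff_not]; omega
      rw [e1, Bool.false_xor, decide_eq_decide]
      omega
    · rw [Nat.mod_eq_sub_mod h, Nat.mod_eq_of_lt (show a - T < T by omega)]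
      have e1 : decide (T ≤ a) = true := by rw [decide_eq_true_iff]; omega
      have e2 : decide (a - T + 1 = T) = false := by rw [decide_eq_false_iff_not]; omega
      have e3 : decide (T ≤ a + 1) = true := by rw [decide_eq_true_iff]; omega
      rw [e1, e2, e3]
      rfl
  · have h6 : a + 1 = T * 2 := by omega
    rw [h6, Nat.mod_self]
    rw [Nat.mod_eq_sub_mod (show T ≤ a by omega), Nat.mod_eq_of_lt (show a - T < T by omega)]
    have e1 : decide (T ≤ a) = true := by rw [decide_eq_true_iff]; omega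
    have e2 : decide (a - T + 1 = T) = true := by rw [decide_eq_true_iff]; omega
    have e3 : decide (T ≤ 0) = false := by rw [decide_eq_false_iff_not]; omega
    rw [e1, e2, e3]
    rfl

lemma val_add_one_mod {k x : ℕ} (hx : x ≤ k) (y : ZMod (3 * 2 ^ k)) :
    (y + 1).val % 2 ^ x = (y.val + 1) % 2 ^ x := by
  have : Fact (1 < 3 * 2 ^ k) := ⟨by
    have : 1 ≤ 2 ^ k := Nat.one_le_two_pow
    omega⟩
  rw [ZMod.val_add, ZMod.val_one, Nat.mod_mod_of_dvd _ (Dvd.dvd.mul_left (pow_dvd_pow 2 hx) 3)]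

lemma isLeft_iff {ty : Bool} {k : ℕ} {p q : Cyl k} (h : (cyl ty k).Adj p q) :
    IsLeft (lab ty p) (lab ty q) ↔ (p.1.val = q.1.val + 1 ∧ q.1.val ≠ 0 ∧ p.2 = q.2) := by
  constructor
  · rintro ⟨h1, h2, h3, h4⟩
    simp only [lab, decide_eq_true_eq] at h1 h2 h3 h4
    rcases h with (⟨a, b⟩ | ⟨a, -, b⟩ | ⟨-, a, -⟩) | (⟨a, b⟩ | ⟨a, -, b⟩ | ⟨-, a, -⟩)
    · exfalso
      rw [a] at h3
      push_cast at h3
      have h5 : (2 : ZMod 3) = 0 := by linear_combination -h3
      exact absurd h5 (by decide)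
    · exfalso
      rw [a] at h3
      have h5 : (1 : ZMod 3) = 0 := by linear_combination -h3
      exact absurd h5 (by decide)
    · exact absurd a h1
    · exact ⟨a, h2, b⟩
    · exfalso
      rw [a] at h3
      have h5 : (1 : ZMod 3) = 0 := by linear_combination -h3
      exact absurd h5 (by decide)
    · exact absurd a h2
  · rintro ⟨h1, h2, h3⟩
    refine ⟨?_, ?_, ?_, ?_⟩
    · simp only [lab, decide_eq_true_eq]; omega
    · simp only [lab, decide_eq_true_eq]; exact h2
    · simp only [lab, h1]; push_cast; ring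
    · simp only [lab, h3]

lemma isUp_iff {ty : Bool} {k : ℕ} {p q : Cyl k} (h : (cyl ty k).Adj p q) :
    IsUp (lab ty p) (lab ty q) ↔ (q.1.val = p.1.val ∧ p.1.val ≠ 0 ∧ q.2 = p.2 + 1) := by
  constructor
  · rintro ⟨h1, h2, h3, h4⟩
    simp only [lab, decide_eq_true_eq] at h1 h2 h3 h4
    rcases h with (⟨a, b⟩ | ⟨a, -, b⟩ | ⟨-, a, -⟩) | (⟨a, b⟩ | ⟨a, -, b⟩ | ⟨-, a, -⟩)
    · exfalso
      rw [a] at h3
      push_cast at h3
      have h5 : (1 : ZMod 3) = 0 := by linear_combination -h3
      exact absurd h5 (by decide)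
    · exact ⟨a, h1, b⟩
    · exact absurd a h1
    · exfalso
      rw [a] at h3
      push_cast at h3
      have h5 : (1 : ZMod 3) = 0 := by linear_combination h3
      exact absurd h5 (by decide)
    · exfalso
      rw [b, map_add, map_one] at h4
      have h5 : (2 : ZMod 3) = 0 := by linear_combination -h4
      exact absurd h5 (by decide)
    · exact absurd a h2
  · rintro ⟨h1, h2, h3⟩
    refine ⟨?_, ?_, ?_, ?_⟩
    · simp only [lab, decide_eq_true_eq]; exact h2
    · simp only [lab, decide_eq_true_eq]; omega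
    · simp only [lab, h1]
    · simp only [lab, h3, map_add, map_one]

lemma cyl_ext {k : ℕ} {p q : Cyl k} (h1 : p.1.val = q.1.val) (h2 : p.2 = q.2) : p = q :=
  Prod.ext (Fin.ext h1) h2

lemma cyl_allowed (ty : Bool) {k : ℕ} (hk : 1 ≤ k) (p : Cyl k) :
    AllowedC (cyl ty k) (lab ty) p := by
  have hp1 := p.1.2
  have hzero : p.1.val = 0 → ∀ q, (cyl ty k).Adj p q → q.1.val = 1 := by
    intro h0 q hq
    rcases hq with (⟨a, b⟩ | ⟨a, a', b⟩ | ⟨-, -, a, -⟩) | (⟨a, b⟩ | ⟨a, a', b⟩ | ⟨-, a, a', -⟩)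
    · omega
    · exact absurd h0 a'
    · exact a
    · omega
    · omega
    · omega
  have hupadj : p.1.val ≠ 0 → (cyl ty k).Adj p (p.1, p.2 + 1) := fun h0 =>
    Or.inl (Or.inr (Or.inl ⟨rfl, h0, rfl⟩))
  have hdownadj : p.1.val ≠ 0 → (cyl ty k).Adj p (p.1, p.2 - 1) := fun h0 =>
    Or.inr (Or.inr (Or.inl ⟨rfl, h0, by simp⟩))
  have hleftadj : ∀ h0 : p.1.val ≠ 0, (cyl ty k).Adj p (⟨p.1.val - 1, by omega⟩, p.2) :=
    fun h0 => Or.inr (Or.inl ⟨by simp only; omega, rfl⟩)
  refine ⟨?_, ?_, ?_, ?_, ?_, ?_, ?_, ?_, ?_⟩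
  · -- pair
    intro q hq
    refine ⟨rfl, ?_, ?_, ?_, ?_⟩
    · intro h1 h2
      simp only [lab, decide_eq_true_eq] at h1 h2
      rcases hq with (⟨a, b⟩ | ⟨a, a', b⟩ | ⟨-, a, -⟩) | (⟨a, b⟩ | ⟨a, a', b⟩ | ⟨-, a, -⟩)
      · right; left
        exact (isLeft_iff (Or.inr (Or.inl ⟨a, b⟩))).2 ⟨a, h1, b⟩
      · right; right; left
        exact (isUp_iff (Or.inl (Or.inr (Or.inl ⟨a, a', b⟩)))).2 ⟨a, a', b⟩
      · exact absurd a h1
      · left
        exact (isLeft_iff (Or.inr (Or.inl ⟨a, b⟩))).2 ⟨a, h2, b⟩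
      · right; right; right
        exact (isUp_iff (Or.inl (Or.inr (Or.inl ⟨a, a', b⟩)))).2 ⟨a, a', b⟩
      · exact absurd a h2
    · intro h1
      obtain ⟨a, b, c⟩ := (isLeft_iff hq).1 h1
      refine ⟨?_, ?_⟩
      · simp only [lab, decide_eq_false_iff_not]; omega
      · obtain ⟨e, he⟩ : ∃ e, q.1.val = e + 1 := ⟨q.1.val - 1, by omega⟩
        simp only [lab]
        rw [a, he, c, ← Bool.decide_and, decide_eq_decide]
        simp only [Nat.add_sub_cancel]
        exact arith_carry _ _
    · intro h1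
      obtain ⟨a, b, c⟩ := (isUp_iff hq).1 h1
      refine ⟨?_, ?_⟩
      · simp only [lab, a]
      · obtain ⟨e, he⟩ : ∃ e, p.1.val = e + 1 := ⟨p.1.val - 1, by omega⟩
        simp only [lab]
        rw [a, he, c, val_add_one_mod (by omega)]
        simp only [Nat.add_sub_cancel]
        exact arith_bit _ _
    · intro h1
      have h0 : p.1.val = 0 := by
        simpa only [lab, decide_eq_false_iff_not, not_not] using h1
      have := hzero h0 q hq
      simp only [lab, decide_eq_true_eq]
      omega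
  · -- last
    intro h1
    simp only [lab, decide_eq_true_eq] at h1
    simp only [lab, decide_eq_true_eq, h1]
    simp [Nat.mod_one]
  · -- up
    intro h1
    simp only [lab, decide_eq_true_eq] at h1
    exact ⟨_, hupadj h1, (isUp_iff (hupadj h1)).2 ⟨rfl, h1, rfl⟩⟩
  · -- left
    intro h1 h2
    simp only [lab, decide_eq_true_eq, decide_eq_false_iff_not] at h1 h2
    refine ⟨_, hleftadj h1, (isLeft_iff (hleftadj h1)).2 ⟨?_, ?_, rfl⟩⟩ <;> simp only <;> omega
  · -- pend
    intro h1 _
    simp only [lab, decide_eq_true_eq] at h1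
    refine ⟨_, hleftadj (by omega), ?_⟩
    simp only [lab, decide_eq_false_iff_not, not_not]
    omega
  · -- uniq
    intro w w' hw hw' h1 h2
    obtain ⟨a, b, c⟩ := (isLeft_iff hw).1 h1
    obtain ⟨a', b', c'⟩ := (isLeft_iff hw').1 h2
    exact cyl_ext (by omega) (c.symm.trans c')
  · -- square
    intro w v' hw h1 hv h2
    obtain ⟨a, b, c⟩ := (isLeft_iff hw).1 h1
    obtain ⟨a', b', c'⟩ := (isUp_iff hv).1 h2
    have e1 : (cyl ty k).Adj w (w.1, w.2 + 1) := Or.inl (Or.inr (Or.inl ⟨rfl, b, rfl⟩))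
    have e2 : (cyl ty k).Adj v' (w.1, w.2 + 1) :=
      Or.inr (Or.inl ⟨by simp only; omega, by simp only; rw [c', c]⟩)
    exact ⟨_, e1, (isUp_iff e1).2 ⟨rfl, b, rfl⟩, e2, (isLeft_iff e2).2
      ⟨by simp only; omega, b, by simp only; rw [c', c]⟩⟩
  · -- one
    constructor
    · rintro ⟨a, ha⟩
      have h0 : p.1.val = 0 := by
        by_contra h0
        have e1 := (ha _).1 (hupadj h0)
        have e2 := (ha _).1 (hdownadj h0)
        have e3 := congrArg Prod.snd (e1.trans e2.symm)
        exact add_one_ne_sub_one _ e3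
      refine ⟨?_, by simp only [lab, decide_eq_false_iff_not, not_not]; exact h0⟩
      by_contra hty
      have hty' : ty = false := by simpa [lab] using hty
      have e1 : (cyl ty k).Adj p (⟨1, by omega⟩, p.2) :=
        Or.inl (Or.inl ⟨by simp only; omega, rfl⟩)
      have e2 : (cyl ty k).Adj p (⟨1, by omega⟩, p.2 + 1) :=
        Or.inl (Or.inr (Or.inr ⟨hty', h0, rfl, rfl⟩))
      have e3 := congrArg Prod.snd (((ha _).1 e1).trans ((ha _).1 e2).symm)
      exact add_one_ne _ e3
    · rintro ⟨h1, h2⟩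
      have h1' : ty = true := h1
      have h0 : p.1.val = 0 := by
        simpa only [lab, decide_eq_false_iff_not, not_not] using h2
      refine ⟨(⟨1, by omega⟩, p.2), fun u => ?_⟩
      constructor
      · rintro ((⟨a, b⟩ | ⟨a, a', b⟩ | ⟨a, -⟩) | (⟨a, b⟩ | ⟨a, a', b⟩ | ⟨a, -⟩))
        · exact cyl_ext (by simp only; omega) b
        · exact absurd h0 a'
        · rw [h1'] at a; exact absurd a (by decide)
        · omega
        · omega
        · rw [h1'] at a; exact absurd a (by decide)
      · rintro rfl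
        exact Or.inl (Or.inl ⟨by simp only; omega, rfl⟩)
  · -- two
    rintro ⟨a, b, hab, ha⟩
    by_contra hty
    have hty' : ty = true := by simpa [lab] using hty
    by_cases h0 : p.1.val = 0
    · have hall : ∀ u, (cyl ty k).Adj p u → u.1.val = 1 ∧ u.2 = p.2 := by
        rintro u ((⟨a, b⟩ | ⟨a, a', b⟩ | ⟨a, -⟩) | (⟨a, b⟩ | ⟨a, a', b⟩ | ⟨a, -⟩))
        · exact ⟨by omega, b⟩
        · exact absurd h0 a'
        · rw [hty'] at a; exact absurd a (by decide)
        · omega
        · omega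
        · rw [hty'] at a; exact absurd a (by decide)
      obtain ⟨e1, e2⟩ := hall a ((ha a).2 (Or.inl rfl))
      obtain ⟨e3, e4⟩ := hall b ((ha b).2 (Or.inr rfl))
      exact hab (cyl_ext (e1.trans e3.symm) (e2.trans e4.symm))
    · have e1 := (ha _).1 (hupadj h0)
      have e2 := (ha _).1 (hdownadj h0)
      have e3 := (ha _).1 (hleftadj h0)
      have n12 : (p.1, p.2 + 1) ≠ (p.1, p.2 - 1) := fun h =>
        add_one_ne_sub_one _ (congrArg Prod.snd h)
      have n13 : (p.1, p.2 + 1) ≠ ((⟨p.1.val - 1, by omega⟩, p.2) : Cyl k) := fun h => by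
        have := congrArg (fun u : Cyl k => u.1.val) h
        simp only at this
        omega
      have n23 : (p.1, p.2 - 1) ≠ ((⟨p.1.val - 1, by omega⟩, p.2) : Cyl k) := fun h => by
        have := congrArg (fun u : Cyl k => u.1.val) h
        simp only at this
        omega
      rcases e1 with e1 | e1 <;> rcases e2 with e2 | e2 <;> rcases e3 with e3 | e3
      · exact n12 (e1.trans e2.symm)
      · exact n12 (e1.trans e2.symm)
      · exact n13 (e1.trans e3.symm)
      · exact n23 (e2.trans e3.symm)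
      · exact n23 (e2.trans e3.symm)
      · exact n13 (e1.trans e3.symm)
      · exact n12 (e1.trans e2.symm)
      · exact n12 (e1.trans e2.symm)

/-! ## Balls in the cylinders -/

lemma cyl_ball {ty : Bool} {k : ℕ} (p : Cyl k) : ∀ r, ∀ u ∈ ball (cyl ty k) p r,
    u.1.val ≤ p.1.val + r ∧ p.1.val ≤ u.1.val + r ∧
      ∃ j : ℤ, -(r : ℤ) ≤ j ∧ j ≤ r ∧ u.2 = p.2 + (j : ZMod (3 * 2 ^ k)) := by
  intro r
  induction r with
  | zero =>
    intro u hu
    rw [mem_ball_zero.1 hu]
    exact ⟨by omega, by omega, 0, by simp, by simp, by simp⟩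
  | succ r ih =>
    intro u hu
    rcases mem_ball_succ'.1 hu with rfl | ⟨w, hw, hwu⟩
    · exact ⟨by omega, by omega, 0, by omega, by omega, by simp⟩
    · obtain ⟨h1, h2, j, h3, h4, h5⟩ := ih w hw
      rcases hwu with (⟨a, b⟩ | ⟨a, a', b⟩ | ⟨-, a, a', b⟩) |
        (⟨a, b⟩ | ⟨a, a', b⟩ | ⟨-, a, a', b⟩)
      · exact ⟨by omega, by omega, j, by push_cast; omega, by push_cast; omega, by rw [b, h5]⟩
      · exact ⟨by omega, by omega, j + 1, by push_cast; omega, by push_cast; omega,
          by rw [b, h5]; push_cast; ring⟩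
      · exact ⟨by omega, by omega, j + 1, by push_cast; omega, by push_cast; omega,
          by rw [b, h5]; push_cast; ring⟩
      · exact ⟨by omega, by omega, j, by push_cast; omega, by push_cast; omega, by rw [← b, h5]⟩
      · refine ⟨by omega, by omega, j - 1, by push_cast; omega, by push_cast; omega, ?_⟩
        rw [h5] at b
        push_cast
        linear_combination -b
      · refine ⟨by omega, by omega, j - 1, by push_cast; omega, by push_cast; omega, ?_⟩
        rw [h5] at b
        push_cast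
        linear_combination -b

lemma cyl_growth {ty : Bool} {k : ℕ} (p : Cyl k) (r : ℕ) :
    (ball (cyl ty k) p r).ncard ≤ (2 * r + 1) ^ 2 := by
  classical
  set emb : Cyl k → ℕ × ZMod (3 * 2 ^ k) := fun u => (u.1.val, u.2) with hemb
  have hinj : Function.Injective emb := by
    intro u w h
    obtain ⟨h1, h2⟩ := Prod.ext_iff.1 h
    exact cyl_ext h1 h2
  set T : Finset (ℕ × ℤ) :=
    Finset.Icc (p.1.val - r) (p.1.val + r) ×ˢ Finset.Icc (-(r : ℤ)) (r : ℤ) with hT
  set psi : ℕ × ℤ → ℕ × ZMod (3 * 2 ^ k) := fun z => (z.1, p.2 + (z.2 : ZMod (3 * 2 ^ k)))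
  have h1 : emb '' (ball (cyl ty k) p r) ⊆ ((T.image psi : Finset (ℕ × ZMod (3 * 2 ^ k))) :
      Set (ℕ × ZMod (3 * 2 ^ k))) := by
    rintro _ ⟨u, hu, rfl⟩
    obtain ⟨h1, h2, j, h3, h4, h5⟩ := cyl_ball p r u hu
    rw [Finset.coe_image]
    refine ⟨(u.1.val, j), ?_, ?_⟩
    · rw [Finset.mem_coe, hT, Finset.mem_product, Finset.mem_Icc, Finset.mem_Icc]
      exact ⟨⟨by simp only; omega, by simp only; omega⟩, h3, h4⟩
    · simp only [psi, emb, h5]
  rw [← Set.ncard_image_of_injective _ hinj]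
  refine (Set.ncard_le_ncard h1 (Finset.finite_toSet _)).trans ?_
  rw [Set.ncard_coe_finset]
  refine Finset.card_image_le.trans ?_
  rw [hT, Finset.card_product, Nat.card_Icc, Int.card_Icc, pow_two]
  refine Nat.mul_le_mul ?_ ?_
  · omega
  · omega

lemma cyl_connected (ty : Bool) {k : ℕ} (hk : 1 ≤ k) : (cyl ty k).Connected := by
  set o : Cyl k := (⟨1, by omega⟩, 0) with ho
  have hcol : ∀ m : ℕ, (cyl ty k).Reachable o (⟨1, by omega⟩, (m : ZMod (3 * 2 ^ k))) := by
    intro m
    induction m with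
    | zero => rw [Nat.cast_zero]
    | succ m ih =>
      refine ih.trans (SimpleGraph.Adj.reachable ?_)
      exact Or.inl (Or.inr (Or.inl ⟨rfl, by simp, by push_cast; rfl⟩))
  have hcol' : ∀ y : ZMod (3 * 2 ^ k), (cyl ty k).Reachable o (⟨1, by omega⟩, y) := by
    intro y
    have := hcol y.val
    rwa [ZMod.natCast_zmod_val] at this
  have hrow : ∀ x : ℕ, ∀ hx : x + 1 < k + 1, ∀ y, (cyl ty k).Reachable o (⟨x + 1, hx⟩, y) := by
    intro x
    induction x with
    | zero => intro _ y; exact hcol' y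
    | succ x ih =>
      intro hx y
      refine (ih (by omega) y).trans (SimpleGraph.Adj.reachable ?_)
      exact Or.inl (Or.inl ⟨rfl, rfl⟩)
  have hall : ∀ p : Cyl k, (cyl ty k).Reachable o p := by
    rintro ⟨⟨x, hx⟩, y⟩
    rcases Nat.eq_zero_or_pos x with h | h
    · subst h
      refine (hcol' y).trans (SimpleGraph.Adj.reachable ?_)
      exact Or.inr (Or.inl ⟨rfl, rfl⟩)
    · obtain ⟨x, rfl⟩ : ∃ z, x = z + 1 := ⟨x - 1, by omega⟩
      exact hrow x hx y
  have : Nonempty (Cyl k) := ⟨o⟩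
  exact ⟨fun p q => (hall p).symm.trans (hall q)⟩

lemma adj_types {k : ℕ} {p q : Cyl k} (hp : p.1.val ≠ 0) (hq : q.1.val ≠ 0) :
    (cyl true k).Adj p q ↔ (cyl false k).Adj p q := by
  rw [cyl_adj, cyl_adj]
  unfold Asc
  simp [hp, hq]

/-- A vertex of the last column. -/
def far (k : ℕ) : Cyl k := (⟨k, by omega⟩, 0)

lemma ball_types {k : ℕ} : ∀ t, t < k →
    ball (cyl true k) (far k) t = ball (cyl false k) (far k) t := by
  intro t
  induction t with
  | zero =>
    intro _
    ext u
    rw [mem_ball_zero, mem_ball_zero]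
  | succ t ih =>
    intro ht
    have h0 := ih (by omega)
    ext u
    rw [mem_ball_succ', mem_ball_succ', h0]
    refine or_congr Iff.rfl ⟨?_, ?_⟩
    · rintro ⟨w, hw, h⟩
      have h1 := (cyl_ball (far k) t w hw).2.1
      have h2 : (far k).1.val = k := rfl
      have hu : u ∈ ball (cyl true k) (far k) (t + 1) :=
        mem_ball_succ'.2 (Or.inr ⟨w, by rw [h0]; exact hw, h⟩)
      have h3 := (cyl_ball (far k) (t + 1) u hu).2.1
      exact ⟨w, hw, (adj_types (by omega) (by omega)).1 h⟩
    · rintro ⟨w, hw, h⟩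
      have h1 := (cyl_ball (far k) t w hw).2.1
      have h2 : (far k).1.val = k := rfl
      have hu : u ∈ ball (cyl false k) (far k) (t + 1) :=
        mem_ball_succ'.2 (Or.inr ⟨w, hw, h⟩)
      have h3 := (cyl_ball (far k) (t + 1) u hu).2.1
      exact ⟨w, hw, (adj_types (by omega) (by omega)).2 h⟩

lemma ballIso_types {k t : ℕ} (ht : t < k) {L : Type} (la : Cyl k → L) :
    BallIso t (cyl true k) la (far k) (cyl false k) la (far k) := by
  refine ⟨Equiv.setCongr (ball_types t ht), fun x hx => hx, fun x y => ?_, fun x => rfl⟩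
  have h2 : (far k).1.val = k := rfl
  have hx := (cyl_ball (far k) t _ x.2).2.1
  have hy := (cyl_ball (far k) t _ y.2).2.1
  exact adj_types (by omega) (by omega)

lemma const_of_allowedP {V : Type} {G : SimpleGraph V} (hc : G.Connected) {l : V → Bool}
    (h : ∀ v, AllowedP G l v) (u v : V) : l u = l v := by
  obtain ⟨p⟩ := hc.preconnected u v
  induction p with
  | nil => rfl
  | @cons a c b hac _ ih => exact ((h a).2.2 _ hac).symm.trans ih

lemma true_solution {k : ℕ} (hk : 1 ≤ k) {l : Cyl k → Bool}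
    (h : ∀ v, AllowedP (cyl true k) l v) (v : Cyl k) : l v = true := by
  set o : Cyl k := (⟨0, by omega⟩, 0)
  rw [const_of_allowedP (cyl_connected true hk) h v o]
  exact (h o).1 ((cyl_allowed true hk o).one.2 ⟨rfl, by simp [lab, o]⟩)

lemma false_solution {k : ℕ} (hk : 1 ≤ k) {l : Cyl k → Bool}
    (h : ∀ v, AllowedP (cyl false k) l v) (v : Cyl k) : l v = false := by
  set o : Cyl k := (⟨0, by omega⟩, 0) with ho
  rw [const_of_allowedP (cyl_connected false hk) h v o]
  refine (h o).2.1 ⟨(⟨1, by omega⟩, 0), (⟨1, by omega⟩, 1), ?_, ?_⟩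
  · intro h1
    have h2 := congrArg Prod.snd h1
    simp only at h2
    exact add_one_ne (0 : ZMod (3 * 2 ^ k)) (by rw [zero_add]; exact h2)
  · intro u
    have ho1 : o.1.val = 0 := rfl
    have ho2 : o.2 = 0 := rfl
    constructor
    · rintro ((⟨a, b⟩ | ⟨a, a', b⟩ | ⟨-, a, a', b⟩) | (⟨a, b⟩ | ⟨a, a', b⟩ | ⟨-, a, a', b⟩))
      · left
        exact cyl_ext (by simp only; omega) b
      · exact absurd ho1 a'
      · right
        refine cyl_ext (by simp only; omega) ?_
        rw [b, ho2, zero_add]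
      · omega
      · omega
      · omega
    · rintro (rfl | rfl)
      · exact Or.inl (Or.inl ⟨rfl, rfl⟩)
      · exact Or.inl (Or.inr (Or.inr ⟨rfl, rfl, rfl, by rw [ho2, zero_add]⟩))

/-! ## Lower bounds -/

/-- The class of the theorem for the growth bound `f`. -/
def cls (f : ℕ → ℕ) : GraphClass := lclClass f probC

lemma cyl_mem {f : ℕ → ℕ} (hf : ∀ r, (2 * r + 1) ^ 2 ≤ f r) (ty : Bool) {k : ℕ} (hk : 1 ≤ k) :
    cyl ty k ∈ connPart (cls f) (Cyl k) :=
  ⟨⟨fun v r => (cyl_growth v r).trans (hf r), lab ty, fun v => cyl_allowed ty hk v⟩,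
    cyl_connected ty hk⟩

lemma cyl_card (k : ℕ) : Nat.card (Cyl k) = 3 * (k + 1) * 2 ^ k := by
  rw [Nat.card_prod, Nat.card_fin, Nat.card_zmod]
  ring

lemma no_common {k : ℕ} (hk : 1 ≤ k) {L : Type} (A : LocalAlg L probP.S)
    (hrad : A.rad (Nat.card (Cyl k)) < k) (la : Cyl k → L)
    (h0 : probP.Solves (cyl true k) (A.out (Nat.card (Cyl k)) (cyl true k) la))
    (h1 : probP.Solves (cyl false k) (A.out (Nat.card (Cyl k)) (cyl false k) la)) : False := by
  have e := A.isLocal _ _ la _ _ la _ (ballIso_types hrad la)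
  have e0 : A.out (Nat.card (Cyl k)) (cyl true k) la (far k) = true := true_solution hk h0 _
  have e1 : A.out (Nat.card (Cyl k)) (cyl false k) la (far k) = false := false_solution hk h1 _
  rw [e0, e1] at e
  have e' : (true : Bool) = false := e
  exact absurd e' (by decide)

lemma det_lower {f : ℕ → ℕ} (hf : ∀ r, (2 * r + 1) ^ 2 ≤ f r) {c : ℝ} (hc : 1 ≤ c)
    (A : LocalAlg ℕ probP.S) (hA : SolvesDet (connPart (cls f)) probP c A) {k : ℕ} (hk : 1 ≤ k) :
    k ≤ A.rad (3 * (k + 1) * 2 ^ k) := by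
  by_contra hlt
  rw [← cyl_card] at hlt
  obtain ⟨e⟩ : Nonempty (Cyl k ≃ Fin (Nat.card (Cyl k))) := ⟨Finite.equivFin _⟩
  have hid : ∀ v : Cyl k, 1 ≤ (e v : ℕ) + 1 ∧
      (((e v : ℕ) + 1 : ℕ) : ℝ) ≤ (Nat.card (Cyl k) : ℝ) ^ c := by
    intro v
    refine ⟨by omega, ?_⟩
    have h1 : (((e v : ℕ) + 1 : ℕ) : ℝ) ≤ (Nat.card (Cyl k) : ℝ) := by
      exact_mod_cast (e v).2
    have h2 : (1 : ℝ) ≤ (Nat.card (Cyl k) : ℝ) := by
      have := (e v).2
      exact_mod_cast (by omega : 1 ≤ Nat.card (Cyl k))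
    exact h1.trans (Real.self_le_rpow_of_one_le h2 hc)
  have hinj : Function.Injective (fun v : Cyl k => (e v : ℕ) + 1) := by
    intro a b hab
    exact e.injective (Fin.ext (by simpa using hab))
  exact no_common hk A (by omega) _ (hA _ _ (cyl_mem hf true hk) _ hinj hid)
    (hA _ _ (cyl_mem hf false hk) _ hinj hid)

lemma rand_lower {f : ℕ → ℕ} (hf : ∀ r, (2 * r + 1) ^ 2 ≤ f r) {d : ℝ}
    (A : LocalAlg (ℕ → Bool) probP.S)
    (hA : SolvesRand (connPart (cls f)) probP d A) {k : ℕ} (hk : 1 ≤ k)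
    (hd : 2 < ((3 * (k + 1) * 2 ^ k : ℕ) : ℝ) ^ d) : k ≤ A.rad (3 * (k + 1) * 2 ^ k) := by
  by_contra hlt
  rw [← cyl_card] at hlt hd
  obtain ⟨m0, p0⟩ := hA _ _ (cyl_mem hf true hk)
  obtain ⟨m1, p1⟩ := hA _ _ (cyl_mem hf false hk)
  set S0 := {w : Cyl k × ℕ → Bool |
    probP.Solves (cyl true k) (A.out (Nat.card (Cyl k)) (cyl true k) (fun v i => w (v, i)))}
  set S1 := {w : Cyl k × ℕ → Bool |
    probP.Solves (cyl false k) (A.out (Nat.card (Cyl k)) (cyl false k) (fun v i => w (v, i)))}
  have hdisj : Disjoint S0 S1 := by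
    rw [Set.disjoint_left]
    intro w h0 h1
    exact no_common hk A (by omega) _ h0 h1
  have : IsProbabilityMeasure (bits (Cyl k)) := by
    unfold bits
    infer_instance
  have hsum : (bits (Cyl k)).real S0 + (bits (Cyl k)).real S1 ≤ 1 := by
    rw [← measureReal_union hdisj m1]
    exact measureReal_le_one
  have hpow : (Nat.card (Cyl k) : ℝ) ^ (-d) < 1 / 2 := by
    rw [Real.rpow_neg (by positivity), one_div]
    exact inv_strictAnti₀ (by norm_num) hd
  linarith

/-! ## The iterated logarithm -/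

lemma logStar_le (m : ℕ) : logStar m ≤ Nat.log 2 m + 1 := by
  induction m using Nat.strong_induction_on with
  | _ m ih =>
    rw [logStar]
    split_ifs with h
    · omega
    · have h1 : Nat.log 2 m < m := Nat.log_lt_self 2 (by omega)
      have h2 := ih _ h1
      have h3 : Nat.log 2 m ≠ 0 := by
        have := Nat.log_pos (b := 2) (n := m) (by norm_num) (by omega)
        omega
      have h4 : Nat.log 2 (Nat.log 2 m) < Nat.log 2 m := Nat.log_lt_self 2 h3
      omega

lemma logStar_size (j : ℕ) : logStar (3 * (2 ^ j + 1) * 2 ^ (2 ^ j)) ≤ j + 4 := by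
  have hj : j < 2 ^ j := Nat.lt_two_pow_self
  have h0 : 3 * (2 ^ j + 1) * 2 ^ (2 ^ j) ≤ 2 ^ (j + 3 + 2 ^ j) := by
    rw [pow_add 2 (j + 3) (2 ^ j)]
    refine Nat.mul_le_mul_right _ ?_
    have h1 : 2 ^ (j + 3) = 2 ^ j * 8 := by rw [pow_add]; norm_num
    rw [h1]
    omega
  have h1 : Nat.log 2 (3 * (2 ^ j + 1) * 2 ^ (2 ^ j)) ≤ j + 3 + 2 ^ j := by
    have := Nat.log_mono_right (b := 2) h0
    rwa [Nat.log_pow (by norm_num)] at this
  have h2 : Nat.log 2 (Nat.log 2 (3 * (2 ^ j + 1) * 2 ^ (2 ^ j))) ≤ j + 2 := by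
    have h3 : Nat.log 2 (3 * (2 ^ j + 1) * 2 ^ (2 ^ j)) ≤ 2 ^ (j + 2) := by
      refine h1.trans ?_
      have h4 : 2 ^ (j + 2) = 2 ^ j * 4 := by rw [pow_add]; norm_num
      rw [h4]
      omega
    have := Nat.log_mono_right (b := 2) h3
    rwa [Nat.log_pow (by norm_num)] at this
  rw [logStar]
  split_ifs with h
  · omega
  · have := logStar_le (Nat.log 2 (3 * (2 ^ j + 1) * 2 ^ (2 ^ j)))
    omega

lemma not_detLogStar {f : ℕ → ℕ} (hf : ∀ r, (2 * r + 1) ^ 2 ≤ f r) {c : ℝ} (hc : 1 ≤ c)
    {F : GraphClass} (hF : ∀ V, connPart (cls f) V ⊆ F V) : ¬ DetLogStar F probP c := by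
  rintro ⟨A, hA', hO⟩
  have hA : SolvesDet (connPart (cls f)) probP c A := fun V _ G hG => hA' V G (hF V hG)
  obtain ⟨C, hC⟩ := hO.bound
  have htend : Tendsto (fun j : ℕ => 3 * (2 ^ j + 1) * 2 ^ (2 ^ j)) atTop atTop := by
    refine tendsto_atTop_mono (fun j => ?_) tendsto_id
    have h1 : j < 2 ^ j := Nat.lt_two_pow_self
    have h2 : 3 * (2 ^ j + 1) ≤ 3 * (2 ^ j + 1) * 2 ^ (2 ^ j) :=
      Nat.le_mul_of_pos_right _ (by positivity)
    simp only [id]
    omega
  have h1 := htend.eventually hC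
  have h2 : Tendsto (fun j : ℕ => ((j : ℝ) + 4) / 2 ^ j) atTop (𝓝 0) := by
    have h3 := (isLittleO_coe_const_pow_of_one_lt (R := ℝ) (r := 2)
      (by norm_num)).tendsto_div_nhds_zero
    have h4 : Tendsto (fun j : ℕ => (4 : ℝ) * (1 / 2) ^ j) atTop (𝓝 (4 * 0)) :=
      (tendsto_pow_atTop_nhds_zero_of_lt_one (by norm_num) (by norm_num)).const_mul 4
    have h5 := h3.add h4
    simp only [mul_zero, add_zero] at h5
    refine h5.congr (fun j => ?_)
    rw [one_div, inv_pow]
    field_simp
  have h3 : Tendsto (fun j : ℕ => C * (((j : ℝ) + 4) / 2 ^ j)) atTop (𝓝 (C * 0)) :=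
    h2.const_mul C
  rw [mul_zero] at h3
  have h4 := h3.eventually (gt_mem_nhds (show (0 : ℝ) < 1 by norm_num))
  obtain ⟨j, hj1, hj2⟩ := (h1.and h4).exists
  have hs : 1 ≤ 2 ^ j := Nat.one_le_two_pow
  have hlow := det_lower hf hc A hA hs
  rw [Real.norm_of_nonneg (by positivity), Real.norm_of_nonneg (by positivity)] at hj1
  have hlow' : ((2 : ℝ) ^ j) ≤ (A.rad (3 * (2 ^ j + 1) * 2 ^ 2 ^ j) : ℝ) := by
    exact_mod_cast hlow
  have hls : (logStar (3 * (2 ^ j + 1) * 2 ^ (2 ^ j)) : ℝ) ≤ (j : ℝ) + 4 := by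
    exact_mod_cast logStar_size j
  have hpos : (0 : ℝ) < 2 ^ j := by positivity
  rw [← mul_div_assoc, div_lt_one hpos] at hj2
  rcases le_or_gt 0 C with hC0 | hC0
  · have := mul_le_mul_of_nonneg_left hls hC0
    linarith
  · have h6 : C * (logStar (3 * (2 ^ j + 1) * 2 ^ (2 ^ j)) : ℝ) ≤ 0 :=
      mul_nonpos_of_nonpos_of_nonneg hC0.le (Nat.cast_nonneg _)
    linarith

lemma randLog (d : ℝ) (F : GraphClass) {f : ℕ → ℕ} (hF : ∀ V, F V ⊆ cls f V) :
    RandLog F probP d := by
  refine ⟨solver (ℕ → Bool), ?_, ?_⟩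
  · intro V _ G hG
    obtain ⟨-, l, hl⟩ := hF V hG
    have huniv : {w : V × ℕ → Bool | probP.Solves G
        ((solver (ℕ → Bool)).out (Nat.card V) G (fun v i => w (v, i)))} = Set.univ := by
      ext w
      simp only [Set.mem_univ, iff_true]
      exact fun v => answer_allowed hl v
    rw [huniv]
    have : IsProbabilityMeasure (bits V) := by
      unfold bits
      infer_instance
    refine ⟨MeasurableSet.univ, ?_⟩
    have h1 : (bits V).real Set.univ = 1 := by simp
    rw [h1]
    have := Real.rpow_nonneg (Nat.cast_nonneg (α := ℝ) (Nat.card V)) (-d)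
    linarith
  · refine Asymptotics.IsBigO.of_bound (1 / Real.log 2 + 1) ?_
    filter_upwards [eventually_ge_atTop 3] with n hn
    have hn' : (3 : ℝ) ≤ n := by exact_mod_cast hn
    have hlog : 1 ≤ Real.log n := by
      rw [Real.le_log_iff_exp_le (by linarith)]
      exact (Real.exp_one_lt_d9.le.trans (by norm_num)).trans hn'
    have h1 : (Nat.log 2 n : ℝ) ≤ Real.logb 2 n := by exact_mod_cast Real.natLog_le_logb n 2
    rw [Real.norm_of_nonneg (by positivity), Real.norm_of_nonneg (by linarith)]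
    change ((Nat.log 2 n + 1 : ℕ) : ℝ) ≤ _
    push_cast
    rw [Real.logb] at h1
    have : (1 / Real.log 2 + 1) * Real.log n = Real.log n / Real.log 2 + Real.log n := by ring
    rw [this]
    linarith

/-! ## The class -/

section comp

variable {V V' L : Type} {H : SimpleGraph V} {G : SimpleGraph V'} {φ : V → V'}

lemma comp_ball (h : UnionOfComponents H G φ) (r : ℕ) :
    ∀ x : V, ball G (φ x) r = φ '' (ball H x r) := by
  obtain ⟨hi, ha, hc⟩ := h
  induction r with
  | zero =>
    intro x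
    ext y
    rw [mem_ball_zero]
    constructor
    · rintro rfl
      exact ⟨x, mem_ball_self _ _ _, rfl⟩
    · rintro ⟨z, hz, rfl⟩
      rw [mem_ball_zero.1 hz]
  | succ r ih =>
    intro x
    ext y
    rw [mem_ball_succ]
    constructor
    · rintro (rfl | ⟨w, hw, hy⟩)
      · exact ⟨x, mem_ball_self _ _ _, rfl⟩
      · obtain ⟨z, rfl⟩ := hc x w hw
        rw [ih z] at hy
        obtain ⟨y, hy, rfl⟩ := hy
        exact ⟨y, mem_ball_succ.2 (Or.inr ⟨z, (ha x z).2 hw, hy⟩), rfl⟩
    · rintro ⟨y, hy, rfl⟩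
      rcases mem_ball_succ.1 hy with rfl | ⟨w, hw, hy⟩
      · exact Or.inl rfl
      · refine Or.inr ⟨φ w, (ha x w).1 hw, ?_⟩
        rw [ih w]
        exact ⟨y, hy, rfl⟩

lemma comp_reach (h : UnionOfComponents H G φ) {x : V} {y : V'} (hy : G.Reachable (φ x) y) :
    ∃ z, φ z = y := by
  obtain ⟨p⟩ := hy
  have : y ∈ ball G (φ x) p.length := ⟨p, le_rfl⟩
  rw [comp_ball h] at this
  obtain ⟨z, -, hz⟩ := this
  exact ⟨z, hz⟩

lemma comp_ballIso (h : UnionOfComponents H G φ) (la : V → L) (la' : V' → L) (x : V) (t : ℕ)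
    (hl : ∀ z ∈ ball H x t, la z = la' (φ z)) : BallIso t H la x G la' (φ x) := by
  refine ⟨(Equiv.Set.image φ (ball H x t) h.1).trans (Equiv.setCongr (comp_ball h t x).symm),
    ?_, ?_, ?_⟩
  · intro z hz
    change φ z = φ x
    rw [hz]
  · intro z w
    exact h.2.1 z w
  · intro z
    exact hl z z.2

end comp

lemma lclClass_componentClosed (f : ℕ → ℕ) (C : LCL) : ComponentClosed (lclClass f C) := by
  constructor
  · rintro V V' H G φ hU ⟨hg, l, hl⟩
    refine ⟨fun v r => ?_, l ∘ φ, fun v => ?_⟩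
    · have h1 := hg (φ v) r
      rwa [comp_ball hU, Set.ncard_image_of_injective _ hU.1] at h1
    · exact (C.isLocal _ _ _ _ _ _
        (comp_ballIso hU (l ∘ φ) l v C.r (fun _ _ => rfl))).2 (hl (φ v))
  · intro V' G h
    choose W H φ hH hU x hx using h
    choose l hl using fun v => (hH v).2
    refine ⟨fun v r => ?_, ?_⟩
    · have h1 := (hH v).1 (x v) r
      rw [← Set.ncard_image_of_injective _ (hU v).1, ← comp_ball (hU v), hx v] at h1
      exact h1
    · set rep : V' → V' := fun v => Quot.out (G.connectedComponentMk v) with hrep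
      have hreach : ∀ v, G.Reachable (rep v) v := fun v =>
        SimpleGraph.ConnectedComponent.exact (Quot.out_eq (G.connectedComponentMk v))
      have hrepeq : ∀ v w, G.Reachable v w → rep w = rep v := fun v w hvw => by
        rw [hrep]
        exact congrArg Quot.out (SimpleGraph.ConnectedComponent.sound hvw.symm)
      have hpre : ∀ v, ∃ y : W (rep v), φ (rep v) y = v := fun v => by
        have h1 := hreach v
        rw [← hx (rep v)] at h1
        exact comp_reach (hU (rep v)) h1
      choose pre hpre using hpre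
      have key : ∀ (a b : V') (_ : a = b) (y : W a) (z : W b), φ a y = φ b z → l a y = l b z := by
        rintro a b rfl y z hyz
        rw [(hU a).1 hyz]
      refine ⟨fun v => l (rep v) (pre v), fun v => ?_⟩
      have h1 := hl (rep v) (pre v)
      have h2 : BallIso C.r (H (rep v)) (l (rep v)) (pre v) G (fun v => l (rep v) (pre v))
          (φ (rep v) (pre v)) := by
        refine comp_ballIso (hU (rep v)) _ _ _ _ (fun z hz => ?_)
        have h3 : G.Reachable v (φ (rep v) z) := by
          have h4 : φ (rep v) z ∈ ball G (φ (rep v) (pre v)) C.r := by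
            rw [comp_ball (hU (rep v))]
            exact ⟨z, hz, rfl⟩
          rw [hpre v] at h4
          exact reachable_of_mem_ball h4
        exact key _ _ (hrepeq _ _ h3).symm z _ (hpre _).symm
      have h5 := (C.isLocal _ _ _ _ _ _ h2).1 h1
      rwa [hpre v] at h5

lemma isoClosed_of_componentClosed {F : GraphClass} (h : ComponentClosed F) : IsoClosed F := by
  rintro V V' G G' ⟨φ⟩ hG
  refine h.1 V' V G' G φ.symm ⟨φ.symm.injective, ?_, ?_⟩ hG
  · intro x y
    exact (φ.symm.map_adj_iff).symm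
  · intro x y _
    exact ⟨φ y, by simp⟩

lemma tendsto_growth :
    Tendsto (fun r : ℕ => Real.log (((2 * r + 1) ^ 2 : ℕ) : ℝ) / r) atTop (𝓝 0) := by
  have h1 := Real.tendsto_pow_log_div_mul_add_atTop (1 / 4) (-(1 / 4)) 1 (by norm_num)
  have h2 : Tendsto (fun r : ℕ => ((2 * r + 1 : ℕ) : ℝ)) atTop atTop := by
    refine tendsto_natCast_atTop_atTop.comp ?_
    refine tendsto_atTop_mono (fun r => ?_) tendsto_id
    simp only [id]; omega
  have h3 := h1.comp h2
  refine h3.congr (fun r => ?_)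
  simp only [Function.comp_apply, pow_one]
  rcases Nat.eq_zero_or_pos r with hr | hr
  · subst hr
    simp
  · have hr' : (0 : ℝ) < r := by exact_mod_cast hr
    push_cast
    rw [Real.log_pow]
    field_simp
    ring

lemma cls_growth : BoundedDegreeSubexp (cls (fun r => (2 * r + 1) ^ 2)) := by
  refine ⟨9, fun r => (2 * r + 1) ^ 2, tendsto_growth, ?_⟩
  intro V _ G hG v
  refine ⟨?_, hG.1 v⟩
  have h1 := hG.1 v 1
  have h2 : G.neighborSet v ⊆ ball G v 1 := fun u hu =>
    mem_ball_succ'.2 (Or.inr ⟨v, mem_ball_self _ _ _, hu⟩)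
  exact (Set.ncard_le_ncard h2 (Set.toFinite _)).trans (h1.trans (by norm_num))

/-- **Main theorem.** (1) The speed-up statement of Q1 is false, for all admissible `c`, `d`.
(2) More precisely, there are LCL problems `C` and `P` of radius `2` and `1` such that the following
holds for every `f` with `f r ≥ (2 r + 1) ^ 2` for all `r` and for the class `F = lclClass f C` of
all finite graphs with `|B(v, r)| ≤ f r` for all `v`, `r` which admit a solution of `C`. The class
is closed under isomorphism, disjoint unions and unions of components. The problem `P` is solved on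
`F` by an algorithm of radius `⌊log₂ n⌋ + 1` which does not use its labels (identifiers or random
bits), whereas every deterministic algorithm for `P`, even on the connected graphs of `F`, has
radius at least `k` at `n = 3 * (k + 1) * 2 ^ k`, and so has every randomized algorithm with failure
probability below `1/2` at this `n`. -/
theorem result :
    (∀ c d : ℝ, 1 ≤ c → 0 < d → ¬ SpeedUp c d) ∧
    ∃ C P : LCL, C.r = 2 ∧ P.r = 1 ∧ ∀ f : ℕ → ℕ, (∀ r, (2 * r + 1) ^ 2 ≤ f r) →
      ComponentClosed (lclClass f C) ∧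
      (∀ L : Type, ∃ A : LocalAlg L P.S, (∀ n, A.rad n = Nat.log 2 n + 1) ∧
        ∀ (V : Type) [Finite V], ∀ G ∈ lclClass f C V, ∀ la : V → L,
          P.Solves G (A.out (Nat.card V) G la)) ∧
      (∀ c : ℝ, 1 ≤ c → ∀ A : LocalAlg ℕ P.S, SolvesDet (connPart (lclClass f C)) P c A →
        ∀ k : ℕ, 1 ≤ k → k ≤ A.rad (3 * (k + 1) * 2 ^ k)) ∧
      (∀ d : ℝ, ∀ A : LocalAlg (ℕ → Bool) P.S, SolvesRand (connPart (lclClass f C)) P d A →
        ∀ k : ℕ, 1 ≤ k → 2 < ((3 * (k + 1) * 2 ^ k : ℕ) : ℝ) ^ d →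
          k ≤ A.rad (3 * (k + 1) * 2 ^ k)) := by
  refine ⟨?_, probC, probP, rfl, rfl, fun f hf => ⟨lclClass_componentClosed f probC, ?_, ?_, ?_⟩⟩
  · intro c d hc _ hS
    exact not_detLogStar (fun r => le_refl ((2 * r + 1) ^ 2)) hc (fun V G hG => hG.1)
      (hS _ (isoClosed_of_componentClosed (lclClass_componentClosed _ _)) cls_growth probP
        (randLog d _ (fun V G hG => hG)))
  · intro L
    refine ⟨solver L, fun _ => rfl, ?_⟩
    rintro V _ G ⟨-, l, hl⟩ _ v
    exact answer_allowed hl v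
  · intro c hc A hA k hk
    exact det_lower hf hc A hA hk
  · intro d A hA k hk hd
    exact rand_lower hf A hA hk hd

end Pool.Agent.Results.MP_e442af_lc.CounterClass
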